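import Pool.Agent.Lib.MP_1a91b9_ntW.A.Inst8
import Pool.Agent.Lib.MP_1a91b9_ntW.R.Defs8
import Pool.Agent.Lib.MP_1a91b9_nuX.QW.PerA
import Pool.Agent.Lib.MP_1a91b9_nuT.CT.Pd1
import Pool.Agent.Lib.MP_1a91b9_ntT.S9.Defs

/-!
# Phase 6, form T for `ℚ(√-2)`: the period of `y² = x³ + 4 d x² + 2 d² x`

At the infinite place the period is `2 √2 ‖om‖² / ‖d‖`. The discriminant of the field is `-8`.
-/

set_option autoImplicit false
set_option linter.unusedSectionVars false

namespace Pool.Agent.Lib.MP_1a91b9_ntW.T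

open NumberField IsDedekindDomain WithZero WeierstrassCurve Pool.Agent.Lib.MP_1a91b9_ntW
  Pool.Agent.Lib.MP_1a91b9_nuT
open Pool.Agent.Lib.MP_1a91b9_ntT.S9 (normFactor period minChange)
open Pool.Agent.Lib.MP_1a91b9_ntT.Per (perAt)
open scoped Classical

/-! ### The infinite place -/

theorem sd8 : sd = 2 * √2 := by
  have h : sd = Real.sqrt ((4 * CD.nm - CD.tr ^ 2 : ℤ) : ℝ) := rfl
  have h1 : (CD.nm : ℤ) = 2 := q8.nm
  have h2 : (CD.tr : ℤ) = 0 := q8.tr
  rw [h, h1, h2]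
  have : (((4 * 2 - 0 ^ 2 : ℤ)) : ℝ) = 2 ^ 2 * 2 := by norm_num
  rw [this, Real.sqrt_mul (by norm_num), Real.sqrt_sq (by norm_num)]

theorem lamK_sq : ((lam : 𝓞 K8) : K8) ^ 2 = -2 := by
  have h := congrArg (fun x : 𝓞 K8 => (x : K8)) lam_sq
  have e : (algebraMap (𝓞 K8) K8) 2 = 2 := map_ofNat _ 2
  simp only [map_pow, map_neg, e] at h
  exact h

theorem not_real8 (v : InfinitePlace K8) : ¬ v.IsReal := by
  intro h
  have h1 := congrArg (InfinitePlace.embedding_of_isReal h) lamK_sq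
  rw [map_pow, map_neg, map_ofNat] at h1
  nlinarith [sq_nonneg (InfinitePlace.embedding_of_isReal h ((lam : 𝓞 K8) : K8))]

theorem finrank_K8 : Module.finrank ℚ K8 = 2 := by
  rw [← RingOfIntegers.rank K8, Module.finrank_eq_card_basis bas]
  rfl

theorem card_places8 : Fintype.card (InfinitePlace K8) = 1 := by
  have h1 := InfinitePlace.card_add_two_mul_card_eq_rank K8
  rw [finrank_K8] at h1
  have h2 : InfinitePlace.nrRealPlaces K8 = 0 := by
    rw [InfinitePlace.nrRealPlaces, Fintype.card_eq_zero_iff]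
    exact ⟨fun w => not_real8 w.1 w.2⟩
  have h3 := InfinitePlace.card_eq_nrRealPlaces_add_nrComplexPlaces K8
  omega

theorem norm_emb8 (v : InfinitePlace K8) (x : K8) : ‖v.embedding x‖ = ‖emb8 x‖ := by
  have h4 : v = InfinitePlace.mk emb8.toRingHom :=
    (Fintype.card_le_one_iff.1 card_places8.le) _ _
  have h5 : ‖v.embedding x‖ = v x := by
    rw [← InfinitePlace.apply, InfinitePlace.mk_embedding]
  rw [h5, h4]
  rfl

/-- the period of the short equation -/
theorem perAt8_cv {d : K8} (hd : d ≠ 0) (v : InfinitePlace K8) :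
    Pool.Agent.Lib.MP_1a91b9_nuT.Per.perAt (Per.cv (-(10 / 3) * d ^ 2) (56 / 27 * d ^ 3)) v =
      2 * √2 * ‖om‖ ^ 2 / ‖emb8 d‖ := by
  obtain ⟨t, ht⟩ := IsAlgClosed.exists_pow_nat_eq (-(v.embedding d) / 36) (n := 2) (by norm_num)
  have hv0 : v.embedding d ≠ 0 := (map_ne_zero v.embedding).2 hd
  have ht0 : t ≠ 0 := by
    rintro rfl
    rw [zero_pow (by norm_num)] at ht
    apply hv0
    linear_combination 36 * ht
  have hA : (CD.A : ℤ) = -4320 := q8.A
  have hB : (CD.B : ℤ) = -96768 := q8.B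
  have h1 := Pool.Agent.Lib.MP_1a91b9_nuX.QW.perAt_complex (N := K8) (a := -(10 / 3) * d ^ 2)
    (b := 56 / 27 * d ^ 3) (v := v) (t := t) (not_real8 v) ht0
    (by
      rw [hA]
      have e : t ^ 4 = (t ^ 2) ^ 2 := by ring
      rw [e, ht]
      simp only [map_mul, map_neg, map_div₀, map_ofNat, map_pow]
      push_cast
      ring)
    (by
      rw [hB]
      have e : t ^ 6 = (t ^ 2) ^ 3 := by ring
      rw [e, ht]
      simp only [map_mul, map_div₀, map_ofNat, map_pow]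
      push_cast
      ring)
  have h4 : ‖t‖ ^ 2 = ‖emb8 d‖ / 36 := by
    rw [← norm_emb8 v, ← norm_pow, ht, norm_div, norm_neg]
    norm_num
  have h5 : ‖om‖ ^ 2 = 36 * ‖Om‖ ^ 2 := by
    have e : om = 6 * Om := rfl
    rw [e, norm_mul, mul_pow]
    norm_num
  have h6 : ‖emb8 d‖ ≠ 0 := by
    rw [← norm_emb8 v]
    exact norm_ne_zero_iff.2 hv0
  rw [h1, sd8, h4, h5]
  field_simp

/-- the period of `y² = x³ + 4 d x² + 2 d² x` -/
theorem perAt8 {d : K8} (hd : d ≠ 0) (v : InfinitePlace K8) :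
    perAt (⟨0, 4 * d, 0, 2 * d ^ 2, 0⟩ : WeierstrassCurve K8) v =
      2 * √2 * ‖om‖ ^ 2 / ‖emb8 d‖ := by
  have h2 : perAt (⟨0, 4 * d, 0, 2 * d ^ 2, 0⟩ : WeierstrassCurve K8) v =
      Pool.Agent.Lib.MP_1a91b9_nuT.Per.perAt
        (⟨0, 4 * d, 0, 2 * d ^ 2, 0⟩ : WeierstrassCurve K8) v := rfl
  have hC : (⟨1, -(4 * d / 3), 0, 0⟩ : VariableChange K8) •
      (⟨0, 4 * d, 0, 2 * d ^ 2, 0⟩ : WeierstrassCurve K8) =
      Per.cv (-(10 / 3) * d ^ 2) (56 / 27 * d ^ 3) := by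
    ext
    · simp [variableChange_a₁, Per.cv]
    · simp [variableChange_a₂, Per.cv]
      ring
    · simp [variableChange_a₃, Per.cv]
    · simp [variableChange_a₄, Per.cv]
      ring
    · simp [variableChange_a₆, Per.cv]
      ring
  have h3 : Fintype.card (InfinitePlace K8) = 1 := card_places8
  have hp := Pool.Agent.Lib.MP_1a91b9_nuT.CT.prod_vc
    (⟨0, 4 * d, 0, 2 * d ^ 2, 0⟩ : WeierstrassCurve K8) ⟨1, -(4 * d / 3), 0, 0⟩
  have hu : Subsingleton (InfinitePlace K8) := Fintype.card_le_one_iff_subsingleton.1 h3.le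
  have hone : ∀ f : InfinitePlace K8 → ℝ, ∏ w : InfinitePlace K8, f w = f v := fun f => by
    rw [Fintype.prod_eq_single v fun w hw => absurd (Subsingleton.elim w v) hw]
  rw [hone, hone, hC] at hp
  rw [h2, ← perAt8_cv hd v, hp]
  simp

theorem prod_perAt8 {d : 𝓞 K8} (hd : d ≠ 0) :
    ∏ v : InfinitePlace K8, perAt (WW d) v = 2 * √2 * ‖om‖ ^ 2 / ‖emb8 (d : K8)‖ := by
  have hdK : ((d : 𝓞 K8) : K8) ≠ 0 := fun h => hd (RingOfIntegers.ext h)
  have h : ∀ v : InfinitePlace K8, perAt (WW d) v = 2 * √2 * ‖om‖ ^ 2 / ‖emb8 (d : K8)‖ :=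
    fun v => perAt8 hdK v
  simp only [h]
  rw [Finset.prod_const, Finset.card_univ, card_places8, pow_one]

/-! ### The period -/

/-- **The period**, `n` the exponent of the scaling factor at the place `lam`. -/
theorem period8 {d : 𝓞 K8} (hd : d ≠ 0) {n : ℤ}
    (hodd : ∀ v : HeightOneSpectrum (𝓞 K8), lam ∉ v.asIdeal → normFactor (WW d) v = 1)
    (hlam : ∀ v : HeightOneSpectrum (𝓞 K8), lam ∈ v.asIdeal → normFactor (WW d) v = 2 ^ n) :
    period (WW d) = 2 ^ n * (2 * √2 * ‖om‖ ^ 2 / ‖emb8 (d : K8)‖) := by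
  obtain ⟨w, hw⟩ : ∃ w : HeightOneSpectrum (𝓞 K8), w.asIdeal = Ideal.span {lam} :=
    ⟨⟨Ideal.span {lam}, (Ideal.span_singleton_prime lam_prime.ne_zero).2 lam_prime, by
      rw [Ne, Ideal.span_singleton_eq_bot]
      exact lam_prime.ne_zero⟩, rfl⟩
  have hlw : lam ∈ w.asIdeal := by
    rw [hw]
    exact Ideal.mem_span_singleton_self _
  have h1 : ∏ᶠ v : HeightOneSpectrum (𝓞 K8), normFactor (WW d) v = 2 ^ n := by
    rw [finprod_eq_single _ w, hlam w hlw]
    intro v hv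
    apply hodd
    intro hm
    apply hv
    apply HeightOneSpectrum.ext
    have hle : Ideal.span {lam} ≤ v.asIdeal := by
      rw [Ideal.span_singleton_le_iff_mem]
      exact hm
    have hmax : (Ideal.span {lam} : Ideal (𝓞 K8)).IsMaximal :=
      ((Ideal.span_singleton_prime lam_prime.ne_zero).2 lam_prime).isMaximal (by
        rw [Ne, Ideal.span_singleton_eq_bot]
        exact lam_prime.ne_zero)
    rw [hw]
    exact (hmax.eq_of_le v.isPrime.ne_top hle).symm
  rw [period, h1, prod_perAt8 hd]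

theorem nf8_one {d : 𝓞 K8} {v : HeightOneSpectrum (𝓞 K8)}
    (h : Valued.v ((minChange (WW d) v).u : v.adicCompletion K8) = (1 : ℤᵐ⁰)) :
    normFactor (WW d) v = 1 := by
  rw [normFactor, h, log_one, neg_zero, zpow_zero]

/-- the factor at `lam` -/
theorem nf8_lam {d : 𝓞 K8} {v : HeightOneSpectrum (𝓞 K8)} (hv : lam ∈ v.asIdeal) {n : ℤ}
    (h : Valued.v ((minChange (WW d) v).u : v.adicCompletion K8) = exp (-n)) :
    normFactor (WW d) v = 2 ^ n := by
  have hle : Ideal.span {lam} ≤ v.asIdeal := by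
    rw [Ideal.span_singleton_le_iff_mem]
    exact hv
  have hmax : (Ideal.span {lam} : Ideal (𝓞 K8)).IsMaximal :=
    ((Ideal.span_singleton_prime lam_prime.ne_zero).2 lam_prime).isMaximal (by
      rw [Ne, Ideal.span_singleton_eq_bot]
      exact lam_prime.ne_zero)
  have hw : v.asIdeal = Ideal.span {lam} := (hmax.eq_of_le v.isPrime.ne_top hle).symm
  rw [normFactor, h, log_exp, neg_neg, hw, Ideal.absNorm_span_singleton]
  have h3 : (Algebra.norm ℤ (lam : 𝓞 K8)).natAbs = 2 := Nz_lam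
  rw [h3]
  norm_num

/-! ### The discriminant of the field -/

theorem discr_K8 : discr K8 = -8 := by
  have hr : ∀ y : 𝓞 K8, ∀ i : Fin 2, bas.repr y i = ![(cp y).1, (cp y).2] i := by
    intro y i
    rfl
  have htr : ∀ x : 𝓞 K8, Algebra.trace ℤ (𝓞 K8) x = 2 * (cp x).1 := by
    intro x
    rw [Algebra.trace_eq_matrix_trace bas, Matrix.trace_fin_two]
    simp only [Algebra.leftMulMatrix_eq_repr_mul, bas_zero, bas_one, hr, cp_mul, cp_one, cp_lam]
    simp
    ring
  rw [← discr_eq_discr K8 bas, Algebra.discr_def, Matrix.det_fin_two]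
  simp only [Algebra.traceMatrix_apply, Algebra.traceForm_apply, bas_zero, bas_one, htr, cp_mul,
    cp_one, cp_lam]
  norm_num

theorem sqrt_discr_K8 : √|(discr K8 : ℝ)| = 2 * √2 := by
  rw [discr_K8]
  have : |((-8 : ℤ) : ℝ)| = 2 ^ 2 * 2 := by norm_num
  rw [this, Real.sqrt_mul (by norm_num), Real.sqrt_sq (by norm_num)]

end Pool.Agent.Lib.MP_1a91b9_ntW.T
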