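import Pool.Agent.Lib.MP_1a91b9_ntW.T.TamW

/-!
# The curves `W_d`, `d = (-1)^k lam^(1-j) DD S`: the product of the Tamagawa numbers and the norm of
the factor of the period
-/

set_option autoImplicit false
set_option linter.unusedSectionVars false

namespace Pool.Agent.Lib.MP_1a91b9_ntW.T

open NumberField IsDedekindDomain WithZero WeierstrassCurve Finset
open Pool.Agent.Lib.MP_1a91b9_ntW
open Pool.Agent.Lib.MP_1a91b9_ntT.S9 (tam normFactor)
open Pool.Agent.Lib.MP_1a91b9_ntV.C (pv pv_self pv_one pv_lt pv_le_pow pv_eq exists_pv)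
open scoped Classical

section

/-- the odd part of `d` -/
noncomputable def dO (k : ZMod 2) (S : Finset Pg) : 𝓞 K8 := (-1) ^ k.val * DD S

theorem dW_one (k : ZMod 2) (S : Finset Pg) : dW k 1 S = dO k S := by
  have h1v : ((1 : ZMod 2)).val = 1 := rfl
  rw [dW, dO, h1v]
  norm_num

theorem dW_zero (k : ZMod 2) (S : Finset Pg) : dW k 0 S = lam * dO k S := by
  rw [dW, dO, ZMod.val_zero]
  norm_num
  ring

theorem dO_odd (k : ZMod 2) (S : Finset Pg) : ¬ lam ∣ dO k S := by
  rw [dO]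
  rcases neg_one_pow_eq_or (𝓞 K8) k.val with h | h
  · rw [h, one_mul]
    exact (Pr_DD S).odd
  · rw [h, neg_one_mul, dvd_neg]
    exact (Pr_DD S).odd

theorem h01 : ∀ z : ZMod 2, z = 0 ∨ z = 1 := by decide

theorem one_val : ((1 : ZMod 2)).val = 1 := rfl

/-- `d = 1` modulo `lam ^ 2` -/
theorem dO_sq (k : ZMod 2) (S : Finset Pg) : lam ^ 2 ∣ dO k S - 1 ↔ AS S = 0 := by
  have h1 : ¬ lam ∣ DD S := (Pr_DD S).odd
  rw [lam_dvd_iff] at h1
  rw [lam_sq, neg_dvd, two_dvd_iff, ← aa_DD, aa_cp, ZMod.intCast_zmod_eq_zero_iff_dvd, dO]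
  push_cast
  rcases h01 k with rfl | rfl
  · rw [ZMod.val_zero, pow_zero, one_mul, cp_sub, cp_one]
    simp only [Prod.fst_sub, Prod.snd_sub]
    constructor
    · rintro ⟨-, h2⟩
      omega
    · intro h2
      constructor <;> omega
  · rw [one_val, pow_one, neg_one_mul, cp_sub, cp_neg, cp_one]
    simp only [Prod.fst_sub, Prod.snd_sub, Prod.fst_neg, Prod.snd_neg]
    constructor
    · rintro ⟨-, h2⟩
      omega
    · intro h2
      constructor <;> omega

/-- `DD S` modulo `4` for `A = 1` -/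
theorem DD_mod (S : Finset Pg) (h : AS S = 1) :
    lam ^ 4 ∣ DD S - (1 + lam) ∨ lam ^ 4 ∣ DD S - (-1 + lam) := by
  have h1 := Pr_iff.1 (Pr_DD S)
  have h2 : ¬ (2 : ℤ) ∣ (cp (DD S)).2 := by
    intro h3
    rw [← aa_DD, aa_cp] at h
    have h4 : (((cp (DD S)).2 : ℤ) : ZMod 2) = 0 :=
      (ZMod.intCast_zmod_eq_zero_iff_dvd _ _).2 (by exact_mod_cast h3)
    rw [h4] at h
    exact zero_ne_one h
  rw [lam_pow4, four_dvd_iff, four_dvd_iff, cp_sub, cp_sub, cp_add, cp_add, cp_neg, cp_one, cp_lam]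
  simp only [Prod.fst_sub, Prod.snd_sub, Prod.fst_add, Prod.snd_add, Prod.fst_neg, Prod.snd_neg]
  omega

/-- no good reduction at `lam` -/
theorem CO_dO {k : ZMod 2} {S : Finset Pg} (h : ¬ (AS S = 1 ∧ k = 1)) : CO (dO k S) := by
  rcases h01 (AS S) with hA | hA
  · exact Or.inl ((dO_sq k S).2 hA)
  · right
    have hk : k = 0 := by
      rcases h01 k with hk | hk
      · exact hk
      · exact absurd ⟨hA, hk⟩ h
    have e : dO k S = DD S := by
      rw [dO, hk, ZMod.val_zero, pow_zero, one_mul]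
    rw [e]
    exact DD_mod S hA

/-- good reduction at `lam` -/
theorem good_dO {S : Finset Pg} (h : AS S = 1) :
    lam ^ 4 ∣ dO 1 S + (1 + lam) ∨ lam ^ 4 ∣ dO 1 S + (-1 + lam) := by
  have e : dO 1 S = -DD S := by
    rw [dO, one_val, pow_one, neg_one_mul]
  rw [e]
  rcases DD_mod S h with h1 | h1
  · left
    have e1 : -DD S + (1 + lam) = -(DD S - (1 + lam)) := by ring
    rw [e1, dvd_neg]
    exact h1
  · right
    have e1 : -DD S + (-1 + lam) = -(DD S - (-1 + lam)) := by ring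
    rw [e1, dvd_neg]
    exact h1

/-- The Tamagawa number at `lam`. -/
noncomputable def cL (j : ZMod 2) (S : Finset Pg) : ℕ := if j = 0 then 1 else if AS S = 0 then 4 else 2

/-- The order of the factor of the period at `lam`. -/
noncomputable def nL (k j : ZMod 2) (S : Finset Pg) : ℕ := if j = 1 then 0 else if AS S = 1 ∧ k = 1 then 2 else 1

theorem tam_vl (k j : ZMod 2) (S : Finset Pg) : tam (WW (dW k j S)) vl = cL j S := by
  rcases h01 j with rfl | rfl
  · rw [dW_zero, cL, if_pos rfl]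
    by_cases h : AS S = 1 ∧ k = 1
    · obtain ⟨hA, rfl⟩ := h
      exact tam_lam_good (dO_odd 1 S) (good_dO hA)
    · exact tam_lam_even (dO_odd k S) (CO_dO h)
  · rw [dW_one, cL, if_neg one_ne_zero, tam_lam_odd (dO_odd k S)]
    exact if_congr (dO_sq k S) rfl rfl

theorem nf_vl (k j : ZMod 2) (S : Finset Pg) : normFactor (WW (dW k j S)) vl = 2 ^ nL k j S := by
  rcases h01 j with rfl | rfl
  · rw [dW_zero, nL, if_neg zero_ne_one]
    by_cases h : AS S = 1 ∧ k = 1
    · rw [if_pos h]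
      obtain ⟨hA, rfl⟩ := h
      rw [nf_lam_good (dO_odd 1 S) (good_dO hA)]
      norm_num
    · rw [if_neg h, nf_lam_even (dO_odd k S) (CO_dO h)]
      norm_num
  · rw [dW_one, nL, if_pos rfl, nf_lam_odd (dO_odd k S), pow_zero]

/-- the divisors of `d` -/
theorem dvd_dW {π : 𝓞 K8} (hp : Prime π) (h : ¬ π ∣ lam) {k j : ZMod 2} {S : Finset Pg}
    (hS : ∀ q ∈ S, ¬ π ∣ q.1) : ¬ π ∣ dW k j S := by
  rw [dW]
  intro hd
  rcases hp.dvd_or_dvd hd with h1 | h1
  · rcases hp.dvd_or_dvd h1 with h2 | h2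
    · rcases neg_one_pow_eq_or (𝓞 K8) k.val with h3 | h3
      · rw [h3] at h2
        exact hp.not_isUnit (isUnit_of_dvd_one h2)
      · rw [h3, dvd_neg] at h2
        exact hp.not_isUnit (isUnit_of_dvd_one h2)
    · exact h (hp.dvd_of_dvd_pow h2)
  · obtain ⟨q, hq, h2⟩ := (hp.dvd_finsetProd_iff _).1 h1
    exact hS q hq h2

theorem val_dW {q : Pg} {k j : ZMod 2} {S : Finset Pg} (hq : q ∈ S) :
    (vq q).valuation K8 ((dW k j S : 𝓞 K8) : K8) = exp (-1 : ℤ) := by
  have e : dW k j S = q.1 * ((-1) ^ k.val * lam ^ (1 - j.val) * DD (S.erase q)) := by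
    rw [dW]
    have e1 : DD S = q.1 * DD (S.erase q) := by
      rw [DD, DD, mul_prod_erase _ _ hq]
    rw [e1]
    ring
  have e2 : ¬ q.1 ∣ (-1) ^ k.val * lam ^ (1 - j.val) * DD (S.erase q) := by
    refine dvd_dW q.2.1 (q_not_lam q) ?_
    intro p hp hd
    exact (ne_of_mem_erase hp) (Pg_eq hd).symm
  rw [e]
  push_cast
  rw [map_mul]
  have e3 : (vq q).valuation K8 ((q.1 : 𝓞 K8) : K8) = exp (-1 : ℤ) := pv_self q.1 q.2.1
  have e4 : (vq q).valuation K8 ((((-1) ^ k.val * lam ^ (1 - j.val) * DD (S.erase q)) : 𝓞 K8) : K8) =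
      1 := pv_one q.2.1 e2
  push_cast at e4
  rw [e3, e4, mul_one]

theorem vq_inj {p q : Pg} (h : vq p = vq q) : p = q := by
  have h1 : Ideal.span {p.1} = Ideal.span {q.1} := congrArg HeightOneSpectrum.asIdeal h
  have h2 : p.1 ∣ q.1 := by
    rw [← Ideal.mem_span_singleton, h1]
    exact Ideal.mem_span_singleton_self _
  exact Pg_eq h2

theorem vl_ne (q : Pg) : vl ≠ vq q := by
  intro h
  have h1 : Ideal.span {lam} = Ideal.span {q.1} := congrArg HeightOneSpectrum.asIdeal h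
  have h2 : lam ∣ q.1 := by
    rw [← Ideal.mem_span_singleton, h1]
    exact Ideal.mem_span_singleton_self _
  exact Pg_not_lam q h2

/-- a place other than `lam` and those of `S` -/
theorem place_cases (S : Finset Pg) (v : HeightOneSpectrum (𝓞 K8)) (h1 : v ≠ vl)
    (h2 : ∀ q ∈ S, v ≠ vq q) : ∃ (π : 𝓞 K8) (hp : Prime π), v = pv π hp ∧ ¬ π ∣ lam ∧
      ∀ q ∈ S, ¬ π ∣ q.1 := by
  obtain ⟨π, hp, hv⟩ := exists_pv v
  refine ⟨π, hp, hv, ?_, ?_⟩
  · intro hd
    exact h1 (hv.trans (pv_eq hp lam_prime hd))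
  · intro q hq hd
    exact h2 q hq (hv.trans (pv_eq hp q.2.1 hd))

theorem finprod_places {M : Type*} [CommMonoid M] (S : Finset Pg)
    (f : HeightOneSpectrum (𝓞 K8) → M) (h : ∀ v, v ≠ vl → (∀ q ∈ S, v ≠ vq q) → f v = 1) :
    ∏ᶠ v, f v = f vl * ∏ q ∈ S, f (vq q) := by
  have hsupp : (Function.mulSupport f) ⊆
      ((insert vl (S.image vq) : Finset (HeightOneSpectrum (𝓞 K8))) :
        Set (HeightOneSpectrum (𝓞 K8))) := by
    intro v hv
    rw [Function.mem_mulSupport] at hv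
    rw [Finset.mem_coe, Finset.mem_insert, Finset.mem_image]
    by_contra hcon
    push Not at hcon
    obtain ⟨n1, n2⟩ := hcon
    exact hv (h v n1 fun q hq h3 => n2 q hq h3.symm)
  have hn : vl ∉ S.image vq := by
    intro hm
    obtain ⟨q, -, hq⟩ := Finset.mem_image.1 hm
    exact vl_ne q hq.symm
  rw [finprod_eq_prod_of_mulSupport_subset _ hsupp, Finset.prod_insert hn,
    Finset.prod_image (fun a _ b _ hab => vq_inj hab)]

/-- **The product of the Tamagawa numbers.** -/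
theorem finprod_tam (k j : ZMod 2) (S : Finset Pg) :
    (∏ᶠ v : HeightOneSpectrum (𝓞 K8), tam (WW (dW k j S)) v) =
      cL j S * ∏ q ∈ S, (if aa q.1 = 0 then 4 else 2) := by
  rw [finprod_places S, tam_vl, Finset.prod_congr rfl fun q hq => tam_q q (val_dW hq)]
  intro v h1 h2
  obtain ⟨π, hp, hv, h3, h4⟩ := place_cases S v h1 h2
  exact tam_unit8 hp hv h3 (dvd_dW hp h3 h4)

/-- The product of the Tamagawa numbers, with the numbers of primes. -/
theorem finprod_tam' (k j : ZMod 2) (S : Finset Pg) :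
    (∏ᶠ v : HeightOneSpectrum (𝓞 K8), tam (WW (dW k j S)) v) =
      cL j S * (4 ^ (S0 S).card * 2 ^ (S1 S).card) := by
  rw [finprod_tam, Finset.prod_ite, Finset.prod_const, Finset.prod_const]
  have e : S.filter (fun q => ¬ aa q.1 = 0) = S1 S := by
    rw [S1]
    refine Finset.filter_congr fun q _ => ?_
    rcases h01 (aa q.1) with h | h
    · rw [h]
      decide
    · rw [h]
      decide
  rw [e]
  rfl

/-- **The norm of the factor of the period.** -/
theorem finprod_nf (k j : ZMod 2) (S : Finset Pg) :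
    (∏ᶠ v : HeightOneSpectrum (𝓞 K8), normFactor (WW (dW k j S)) v) = 2 ^ nL k j S := by
  rw [finprod_places S, nf_vl, Finset.prod_congr rfl fun q hq => nf_q q (val_dW hq),
    Finset.prod_const_one, mul_one]
  intro v h1 h2
  obtain ⟨π, hp, hv, h3, h4⟩ := place_cases S v h1 h2
  exact nf_unit8 hp hv h3 (dvd_dW hp h3 h4)

end

end Pool.Agent.Lib.MP_1a91b9_ntW.T
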