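import Pool.Agent.Lib.MP_1a91b9_ntW.T.Kb

/-!
# The curve `y² = x³ + a x² + b x`: the index of the points with non-singular reduction
-/

set_option autoImplicit false

namespace Pool.Agent.Lib.MP_1a91b9_ntW.T

open WeierstrassCurve WithZero
open Pool.Agent.Lib.MP_1a91b9_ntH.C (nsSet nsG)
open Pool.Agent.Lib.MP_1a91b9_ntH.C.TamT (Itg)
open Pool.Agent.Lib.MP_1a91b9_ntV.C (val_exp even_of_sq zmod2_even exp_neg_lt lt_exp lt_one_exp TamG_int)
open scoped Classical

section

variable {L : Type*} [Field L] {V : Valuation L ℤᵐ⁰} {a b : L}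

theorem mlt1 {x y : ℤᵐ⁰} (hx : x ≤ 1) (hy : y < 1) : x * y < 1 := by
  rw [mul_comm]
  exact mul_lt_one_of_lt_of_le hy hx

theorem v_lt_add {x y z : L} (h : V x < V z) (h' : V y < V z) : V (x + y) < V z :=
  Valuation.map_add_lt _ h h'

/-- the order of the ordinate -/
theorem v_y_le (ha : V a ≤ 1) (hb : V b < 1) {x y : L} (h : y ^ 2 = x ^ 3 + a * x ^ 2 + b * x)
    (hx : 1 ≤ V x) : V y ^ 2 ≤ V x ^ 3 := by
  have hx0 : (0 : ℤᵐ⁰) < V x := lt_of_lt_of_le zero_lt_one hx
  rw [← map_pow, h]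
  refine Valuation.map_add_le _ (Valuation.map_add_le _ ?_ ?_) ?_
  · rw [map_pow]
  · rw [map_mul, map_pow]
    calc V a * V x ^ 2 ≤ 1 * V x ^ 2 := mul_le_mul_left ha _
      _ = V x ^ 2 := one_mul _
      _ ≤ V x ^ 3 := pow_le_pow_right₀ hx (by norm_num)
  · rw [map_mul]
    calc V b * V x ≤ 1 * V x := mul_le_mul_left hb.le _
      _ = V x ^ 1 := by rw [one_mul, pow_one]
      _ ≤ V x ^ 3 := pow_le_pow_right₀ hx (by norm_num)

theorem v_y_lt (ha : V a ≤ 1) (hb : V b < 1) {x y : L} (h : y ^ 2 = x ^ 3 + a * x ^ 2 + b * x)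
    (hx : V x < 1) : V y < 1 := by
  have h1 : V y ^ 2 < 1 := by
    rw [← map_pow, h]
    refine Valuation.map_add_lt _ (Valuation.map_add_lt _ ?_ ?_) ?_
    · rw [map_pow]
      exact pow_lt_one₀ zero_le hx (by norm_num)
    · rw [map_mul, map_pow]
      exact mlt1 ha (pow_lt_one₀ zero_le hx (by norm_num))
    · rw [map_mul]
      exact mul_lt_one_of_lt_of_le hb hx.le
  exact (pow_lt_one_iff_of_nonneg zero_le two_ne_zero).1 h1

/-- the sum of a point with non-singular reduction and a point with singular reduction -/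
theorem v_add_lt (ha : V a ≤ 1) (hb : V b < 1) {x y x' y' : L}
    (h : (wb a b).toAffine.Nonsingular x y) (h' : (wb a b).toAffine.Nonsingular x' y')
    (hx : 1 ≤ V x) (hx' : V x' < 1) :
    ∃ (x'' y'' : L) (h'' : (wb a b).toAffine.Nonsingular x'' y''),
      Affine.Point.some x y h + Affine.Point.some x' y' h' = Affine.Point.some x'' y'' h'' ∧
      V x'' < 1 := by
  have hne : x ≠ x' := by
    rintro rfl
    exact absurd hx (not_le.2 hx')
  have hx0 : (0 : ℤᵐ⁰) < V x := lt_of_lt_of_le zero_lt_one hx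
  rw [Affine.Point.add_of_X_ne hne]
  refine ⟨_, _, _, rfl, ?_⟩
  have e1 := (wb_eqn rfl x y).1 h.1
  have e2 := (wb_eqn rfl x' y').1 h'.1
  rw [Affine.slope_of_X_ne hne, Affine.addX]
  have hs : x - x' ≠ 0 := sub_ne_zero.2 hne
  have hVs : V (x - x') = V x := Valuation.map_sub_eq_of_lt_left _ (hx'.trans_le hx)
  have e3 : ((y - y') / (x - x')) ^ 2 + (wb a b).toAffine.a₁ * ((y - y') / (x - x')) -
      (wb a b).toAffine.a₂ - x - x' =
      (x * x' * (x + x') + 2 * a * (x * x') + b * (x + x') - 2 * (y * y')) / (x - x') ^ 2 := by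
    simp only [wb]
    field_simp
    linear_combination e1 + e2
  rw [e3, map_div₀, map_pow, hVs, div_lt_one₀ (pow_pos hx0 2), ← map_pow]
  have hxx : V x ≤ V x ^ 2 := by
    calc V x = V x ^ 1 := (pow_one _).symm
      _ ≤ V x ^ 2 := pow_le_pow_right₀ hx (by norm_num)
  have hsum : V (x + x') ≤ V x := Valuation.map_add_le _ le_rfl (hx'.le.trans hx)
  have h2 : V 2 ≤ 1 := TamG_int.1 (ofNat_mem _ 2)
  have hy2 : V y ≤ V x ^ 2 := by
    have h3 := v_y_le ha hb e1 hx
    have h4 : V y ^ 2 ≤ (V x ^ 2) ^ 2 := by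
      refine h3.trans ?_
      rw [← pow_mul]
      exact pow_le_pow_right₀ hx (by norm_num)
    exact (pow_le_pow_iff_left₀ zero_le zero_le two_ne_zero).1 h4
  have hy' := v_y_lt ha hb e2 hx'
  have hxp : (0 : ℤᵐ⁰) < V x ^ 2 := pow_pos hx0 2
  refine Valuation.map_sub_lt _ (v_lt_add (v_lt_add ?_ ?_) ?_) ?_
  · rw [map_mul, map_mul, map_pow]
    calc V x * V x' * V (x + x') ≤ V x * V x' * V x := mul_le_mul_right hsum _
      _ = V x' * V x ^ 2 := by rw [pow_two, mul_comm (V x) (V x'), mul_assoc]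
      _ < 1 * V x ^ 2 := mul_lt_mul_of_pos_right hx' hxp
      _ = V x ^ 2 := one_mul _
  · rw [map_mul, map_mul, map_mul, map_pow]
    calc V 2 * V a * (V x * V x') ≤ 1 * (V x * V x') := mul_le_mul_left (mul_le_one' h2 ha) _
      _ = V x' * V x := by rw [one_mul, mul_comm]
      _ < 1 * V x := mul_lt_mul_of_pos_right hx' hx0
      _ ≤ V x ^ 2 := by rw [one_mul]; exact hxx
  · rw [map_mul, map_pow]
    calc V b * V (x + x') ≤ V b * V x := mul_le_mul_right hsum _
      _ < 1 * V x := mul_lt_mul_of_pos_right hb hx0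
      _ ≤ V x ^ 2 := by rw [one_mul]; exact hxx
  · rw [map_mul, map_mul, map_pow]
    calc V 2 * (V y * V y') ≤ 1 * (V y * V y') := mul_le_mul_left h2 _
      _ = V y * V y' := one_mul _
      _ ≤ V x ^ 2 * V y' := mul_le_mul_left hy2 _
      _ < V x ^ 2 * 1 := mul_lt_mul_of_pos_left hy' hxp
      _ = V x ^ 2 := mul_one _

/-- The points with an abscissa of value `≥ 1`. -/
def bigG (V : Valuation L ℤᵐ⁰) (hD : (wb a b).Δ ≠ 0) (ha : V a ≤ 1) (hb : V b < 1) :
    AddSubgroup (wb a b).toAffine.Point where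
  carrier := {P | ∀ (x y : L) (h : (wb a b).toAffine.Nonsingular x y),
    P = Affine.Point.some x y h → 1 ≤ V x}
  zero_mem' := fun x y h h0 => absurd h0.symm (Affine.Point.some_ne_zero _)
  neg_mem' := by
    intro P hP x y h h0
    rcases P with _ | ⟨x1, y1, h1⟩
    · exact absurd h0.symm (Affine.Point.some_ne_zero _)
    · rw [Affine.Point.neg_some, Affine.Point.some.injEq] at h0
      rw [← h0.1]
      exact hP x1 y1 h1 rfl
  add_mem' := by
    intro P Q hP hQ x y h h0
    by_contra hlt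
    rw [not_le] at hlt
    rcases P with _ | ⟨x1, y1, h1⟩
    · have e : (Affine.Point.zero : (wb a b).toAffine.Point) + Q = Q := zero_add Q
      rw [e] at h0
      exact absurd (hQ x y h h0) (not_le.2 hlt)
    · have hx1 := hP x1 y1 h1 rfl
      have e1 : Q = -Affine.Point.some x1 y1 h1 + Affine.Point.some x y h := by
        rw [← h0]
        abel
      rw [Affine.Point.neg_some] at e1
      obtain ⟨x2, y2, h2, e2, h3⟩ := v_add_lt ha hb _ h hx1 hlt
      rw [e2] at e1
      exact absurd (hQ x2 y2 h2 e1) (not_le.2 h3)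

theorem mem_bigG {hD : (wb a b).Δ ≠ 0} {ha : V a ≤ 1} {hb : V b < 1}
    {P : (wb a b).toAffine.Point} : P ∈ bigG V hD ha hb ↔
    ∀ (x y : L) (h : (wb a b).toAffine.Nonsingular x y), P = Affine.Point.some x y h → 1 ≤ V x :=
  Iff.rfl

theorem mem_bigG_some {hD : (wb a b).Δ ≠ 0} {ha : V a ≤ 1} {hb : V b < 1} {x y : L}
    (h : (wb a b).toAffine.Nonsingular x y) :
    Affine.Point.some x y h ∈ bigG V hD ha hb ↔ 1 ≤ V x := by
  rw [mem_bigG]
  constructor
  · intro h1
    exact h1 x y h rfl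
  · intro h1 x' y' h' h2
    rw [Affine.Point.some.injEq] at h2
    rw [← h2.1]
    exact h1

/-- the hypothesis on the generating set -/
def NS (V : Valuation L ℤᵐ⁰) (a b : L) : Prop :=
  ∀ (x y : L) (h : (wb a b).toAffine.Nonsingular x y),
    Affine.Point.some x y h ∈ nsSet V (wb a b) ↔ 1 ≤ V x

theorem nsG_eq (hD : (wb a b).Δ ≠ 0) (ha : V a ≤ 1) (hb : V b < 1) (hN : NS V a b) :
    nsG V (wb a b) = bigG V hD ha hb := by
  refine le_antisymm ?_ ?_
  · rw [nsG, AddSubgroup.closure_le]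
    intro P hP
    rcases P with _ | ⟨x, y, h⟩
    · exact zero_mem _
    · exact (mem_bigG_some h).2 ((hN x y h).1 hP)
  · intro P hP
    refine AddSubgroup.subset_closure ?_
    rcases P with _ | ⟨x, y, h⟩
    · exact Or.inl rfl
    · exact (hN x y h).2 ((mem_bigG_some h).1 hP)

/-- the two partial derivatives -/
theorem ns_iff {x y : L} (h : (wb a b).toAffine.Nonsingular x y) :
    Affine.Point.some x y h ∈ nsSet V (wb a b) ↔
      1 < V x ∨ V (2 * y) = 1 ∨ V (3 * x ^ 2 + 2 * a * x + b) = 1 := by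
  have e1 : 2 * y + (wb a b).a₁ * x + (wb a b).a₃ = 2 * y := by
    simp only [wb]
    ring
  have e2 : 3 * x ^ 2 + 2 * (wb a b).a₂ * x + (wb a b).a₄ - (wb a b).a₁ * y =
      3 * x ^ 2 + 2 * a * x + b := by
    simp only [wb]
    ring
  constructor
  · rintro (h0 | ⟨x', y', h', h1, h2⟩)
    · exact absurd h0 (Affine.Point.some_ne_zero _)
    · obtain ⟨rfl, rfl⟩ := (Affine.Point.some.injEq ..).mp h1
      rw [e1, e2] at h2
      exact h2
  · intro h2
    refine Or.inr ⟨x, y, h, rfl, ?_⟩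
    rw [e1, e2]
    exact h2

theorem v3_two (h2 : V 2 < 1) : V (3 : L) = 1 := by
  have e : (3 : L) = 2 + 1 := by norm_num
  rw [e, Valuation.map_add_eq_of_lt_right, map_one]
  rwa [map_one]

/-- residue characteristic `2` -/
theorem NS_two (h2 : V 2 < 1) (ha : V a ≤ 1) (hb : V b < 1) : NS V a b := by
  intro x y h
  rw [ns_iff]
  have e1 := (wb_eqn rfl x y).1 h.1
  have hmem : ∀ z : L, z ∈ V.integer ↔ V z ≤ 1 := fun z => Valuation.mem_integer_iff _ _
  constructor
  · intro h1
    by_contra hlt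
    rw [not_le] at hlt
    have hy := v_y_lt ha hb e1 hlt
    rcases h1 with h1 | h1 | h1
    · exact absurd h1 (not_lt.2 hlt.le)
    · rw [map_mul] at h1
      have h3 := mul_lt_one_of_lt_of_le h2 hy.le
      rw [h1] at h3
      exact lt_irrefl _ h3
    · have h3 : V (3 * x ^ 2 + 2 * a * x + b) < 1 := by
        refine Valuation.map_add_lt _ (Valuation.map_add_lt _ ?_ ?_) hb
        · rw [map_mul, map_pow]
          exact mlt1 (TamG_int.1 (ofNat_mem _ 3))
            (pow_lt_one₀ zero_le hlt (by norm_num))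
        · rw [map_mul, map_mul]
          exact mul_lt_one_of_lt_of_le (mul_lt_one_of_lt_of_le h2 ha) hlt.le
      rw [h1] at h3
      exact lt_irrefl _ h3
  · intro h1
    rcases h1.lt_or_eq with h3 | h3
    · exact Or.inl h3
    · right; right
      have h4 : V (3 * x ^ 2) = 1 := by
        rw [map_mul, map_pow, ← h3, one_pow, mul_one, v3_two h2]
      have e : 3 * x ^ 2 + 2 * a * x + b = 3 * x ^ 2 + (2 * a * x + b) := by ring
      rw [e, Valuation.map_add_eq_of_lt_left, h4]
      rw [h4]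
      refine Valuation.map_add_lt _ ?_ hb
      rw [map_mul, map_mul]
      exact mul_lt_one_of_lt_of_le (mul_lt_one_of_lt_of_le h2 ha) h3.ge

/-- odd residue characteristic -/
theorem NS_odd (h2 : V 2 = 1) (ha : V a < 1) (hb : V b < 1) : NS V a b := by
  intro x y h
  rw [ns_iff]
  have e1 := (wb_eqn rfl x y).1 h.1
  constructor
  · intro h1
    by_contra hlt
    rw [not_le] at hlt
    have hy := v_y_lt ha.le hb e1 hlt
    rcases h1 with h1 | h1 | h1
    · exact absurd h1 (not_lt.2 hlt.le)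
    · rw [map_mul, h2, one_mul] at h1
      rw [h1] at hy
      exact lt_irrefl _ hy
    · have h3 : V (3 * x ^ 2 + 2 * a * x + b) < 1 := by
        refine Valuation.map_add_lt _ (Valuation.map_add_lt _ ?_ ?_) hb
        · rw [map_mul, map_pow]
          exact mlt1 (TamG_int.1 (ofNat_mem _ 3))
            (pow_lt_one₀ zero_le hlt (by norm_num))
        · rw [map_mul, map_mul, h2, one_mul]
          exact mul_lt_one_of_lt_of_le ha hlt.le
      rw [h1] at h3
      exact lt_irrefl _ h3
  · intro h1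
    rcases h1.lt_or_eq with h3 | h3
    · exact Or.inl h3
    · right; left
      have h4 : V (y ^ 2) = 1 := by
        have e : x ^ 3 + a * x ^ 2 + b * x = x ^ 3 + (a * x ^ 2 + b * x) := by ring
        rw [e1, e, Valuation.map_add_eq_of_lt_left, map_pow, ← h3, one_pow]
        rw [map_pow, ← h3, one_pow]
        refine Valuation.map_add_lt _ ?_ ?_
        · rw [map_mul, map_pow, ← h3, one_pow, mul_one]
          exact ha
        · rw [map_mul, ← h3, mul_one]
          exact hb
      rw [map_mul, h2, one_mul]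
      rw [map_pow] at h4
      exact (pow_eq_one_iff.1 h4).resolve_right (by norm_num)

/-! ### the index -/

/-- the order of an abscissa of value `≥ 1` is even -/
theorem even_big (ha : V a ≤ 1) (hb : V b < 1) {x y : L}
    (h : y ^ 2 = x ^ 3 + a * x ^ 2 + b * x) (hx : 1 ≤ V x) {n : ℤ} (hn : V x = exp n) :
    (n : ZMod 2) = 0 := by
  rcases hx.lt_or_eq with h1 | h1
  · have hx0 : (0 : ℤᵐ⁰) < V x := zero_lt_one.trans h1
    have h3 : V (y ^ 2) = V x ^ 3 := by
      have e : x ^ 3 + a * x ^ 2 + b * x = x ^ 3 + (a * x ^ 2 + b * x) := by ring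
      rw [h, e, Valuation.map_add_eq_of_lt_left, map_pow]
      refine v_lt_add ?_ ?_
      · rw [map_mul, map_pow, map_pow]
        calc V a * V x ^ 2 ≤ 1 * V x ^ 2 := mul_le_mul_left ha _
          _ = V x ^ 2 := one_mul _
          _ < V x ^ 3 := pow_lt_pow_right₀ h1 (by norm_num)
      · rw [map_mul, map_pow]
        calc V b * V x ≤ 1 * V x := mul_le_mul_left hb.le _
          _ = V x ^ 1 := by rw [one_mul, pow_one]
          _ < V x ^ 3 := pow_lt_pow_right₀ h1 (by norm_num)
    have hxn : x ≠ 0 := by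
      rintro rfl
      rw [map_zero] at hx0
      exact lt_irrefl _ hx0
    have hy0 : y ≠ 0 := by
      rintro rfl
      rw [zero_pow two_ne_zero, map_zero] at h3
      exact (pow_pos hx0 3).ne h3
    refine even_of_sq (V := V) hn (w := y / x) (div_ne_zero hy0 hxn) ?_
    rw [map_div₀, div_pow, ← map_pow V y, h3]
    field_simp
  · rw [hn, ← exp_zero, exp_inj] at h1
    rw [← h1]
    decide

variable (V) in
theorem pb_t0 (hD : (wb a b).Δ ≠ 0) (hb : V b = exp (-2 : ℤ)) :
    pb V (W := (wb a b).toAffine) rfl hD (t0 rfl hD) = 0 := by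
  rw [pb_exp V rfl hD (n := -2) (by rw [kb_t0]; exact hb)]
  decide

theorem big_le_ker (hD : (wb a b).Δ ≠ 0) (ha : V a ≤ 1) (hb : V b < 1) :
    bigG V hD ha hb ≤ (pb V (W := (wb a b).toAffine) rfl hD).ker := by
  intro P hP
  rw [AddMonoidHom.mem_ker]
  rcases P with _ | ⟨x, y, h⟩
  · exact map_zero _
  · have h1 := (mem_bigG_some h).1 hP
    have hx : x ≠ 0 := by
      rintro rfl
      rw [map_zero] at h1
      exact absurd h1 (not_le.2 zero_lt_one)
    obtain ⟨n, hn⟩ := val_exp (V := V) hx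
    rw [pb_exp V rfl hD (n := n) (by rw [kb_some h hx]; exact hn)]
    exact even_big ha hb ((wb_eqn rfl x y).1 h.1) h1 hn

/-- exactly one of `P`, `P + (0, 0)` has a non-singular reduction, if the order is even -/
theorem xor_big (hD : (wb a b).Δ ≠ 0) (ha : V a ≤ 1) (hb : V b < 1) (hb2 : V b = exp (-2 : ℤ))
    {P : (wb a b).toAffine.Point} (hP : pb V (W := (wb a b).toAffine) rfl hD P = 0) :
    Xor (P + t0 rfl hD ∈ bigG V hD ha hb) (P ∈ bigG V hD ha hb) := by
  have hT : (t0 rfl hD : (wb a b).toAffine.Point) ∉ bigG V hD ha hb := by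
    intro h1
    have h2 := (mem_bigG_some _).1 h1
    rw [map_zero] at h2
    exact absurd h2 (not_le.2 zero_lt_one)
  rcases P with _ | ⟨x, y, h⟩
  · right
    refine ⟨zero_mem _, ?_⟩
    have e : (Affine.Point.zero : (wb a b).toAffine.Point) + t0 rfl hD = t0 rfl hD := zero_add _
    rw [e]
    exact hT
  · by_cases hx : x = 0
    · subst hx
      rw [eq_t0 rfl hD h, t0_two]
      left
      exact ⟨zero_mem _, hT⟩
    · obtain ⟨x', y', h', e1, e2⟩ := add_t0 rfl hD h hx
      obtain ⟨n, hn⟩ := val_exp (V := V) hx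
      rw [pb_exp V rfl hD (n := n) (by rw [kb_some h hx]; exact hn)] at hP
      obtain ⟨m, rfl⟩ := zmod2_even hP
      have hx' : x' ≠ 0 := by
        rintro rfl
        rw [zero_mul] at e2
        exact b_ne hD e2.symm
      obtain ⟨k, hk⟩ := val_exp (V := V) hx'
      have e3 := congrArg V e2
      rw [map_mul, hn, hk, hb2, ← exp_add, exp_inj] at e3
      rw [e1, mem_bigG_some, mem_bigG_some, hn, hk, ← exp_zero, exp_le_exp, exp_le_exp]
      by_cases hm : 0 ≤ m
      · right
        constructor <;> omega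
      · left
        constructor <;> omega

theorem relIndex_big (hD : (wb a b).Δ ≠ 0) (ha : V a ≤ 1) (hb : V b < 1)
    (hb2 : V b = exp (-2 : ℤ)) :
    (bigG V hD ha hb).relIndex (pb V (W := (wb a b).toAffine) rfl hD).ker = 2 := by
  rw [AddSubgroup.relIndex, AddSubgroup.index_eq_two_iff]
  refine ⟨⟨t0 rfl hD, pb_t0 V hD hb2⟩, ?_⟩
  rintro ⟨P, hP⟩
  exact xor_big hD ha hb hb2 hP

/-- **Index four**: there is a point with an abscissa of order `1`. -/
theorem index_four (hD : (wb a b).Δ ≠ 0) (ha : V a ≤ 1) (hb2 : V b = exp (-2 : ℤ)) (hN : NS V a b)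
    (hex : ∃ x y : L, y ^ 2 = x ^ 3 + a * x ^ 2 + b * x ∧ V x = exp (-1 : ℤ)) :
    (nsG V (wb a b)).index = 4 := by
  have hb : V b < 1 := by
    rw [hb2, ← exp_zero, exp_lt_exp]
    norm_num
  rw [nsG_eq hD ha hb hN, ← AddSubgroup.relIndex_mul_index (big_le_ker hD ha hb),
    relIndex_big hD ha hb hb2]
  obtain ⟨x, y, h, hx⟩ := hex
  have hx0 : x ≠ 0 := by
    rintro rfl
    rw [map_zero] at hx
    exact exp_ne_zero hx.symm
  have h1 : pb V (W := (wb a b).toAffine) rfl hD
      (Affine.Point.some x y ((wb_nons rfl hD x y).2 h)) = 1 := by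
    rw [pb_exp V rfl hD (n := -1) (by rw [kb_some _ hx0]; exact hx)]
    decide
  have h2 : Function.Surjective (pb V (W := (wb a b).toAffine) rfl hD) := by
    intro z
    have h01 : ∀ z : ZMod 2, z = 0 ∨ z = 1 := by decide
    rcases h01 z with rfl | rfl
    · exact ⟨0, map_zero _⟩
    · exact ⟨_, h1⟩
  rw [AddSubgroup.index_ker, AddMonoidHom.range_eq_top.2 h2]
  have h6 : Nat.card (⊤ : AddSubgroup (ZMod 2)) = Nat.card (ZMod 2) :=
    Nat.card_congr AddSubgroup.topEquiv.toEquiv
  rw [h6, Nat.card_eq_fintype_card, ZMod.card]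

/-- **Index two**: there is no point with an abscissa of order `1`. -/
theorem index_two (hD : (wb a b).Δ ≠ 0) (ha : V a ≤ 1) (hb2 : V b = exp (-2 : ℤ)) (hN : NS V a b)
    (hno : ∀ x y : L, y ^ 2 = x ^ 3 + a * x ^ 2 + b * x → V x ≠ exp (-1 : ℤ)) :
    (nsG V (wb a b)).index = 2 := by
  have hb : V b < 1 := by
    rw [hb2, ← exp_zero, exp_lt_exp]
    norm_num
  rw [nsG_eq hD ha hb hN, ← AddSubgroup.relIndex_mul_index (big_le_ker hD ha hb),
    relIndex_big hD ha hb hb2]
  have h1 : (pb V (W := (wb a b).toAffine) rfl hD).ker = ⊤ := by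
    rw [eq_top_iff]
    rintro P -
    rw [AddMonoidHom.mem_ker]
    by_contra hne
    have h01 : ∀ z : ZMod 2, z ≠ 0 → z = 1 := by decide
    have hp := h01 _ hne
    have hker := big_le_ker hD ha hb
    rcases P with _ | ⟨x, y, h⟩
    · exact hne (map_zero _)
    have hx : x ≠ 0 := by
      rintro rfl
      rw [eq_t0 rfl hD h, pb_t0 V hD hb2] at hne
      exact hne rfl
    obtain ⟨n, hn⟩ := val_exp (V := V) hx
    obtain ⟨x', y', h', e1, e2⟩ := add_t0 rfl hD h hx
    have hx' : x' ≠ 0 := by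
      rintro rfl
      rw [zero_mul] at e2
      exact b_ne hD e2.symm
    obtain ⟨k, hk⟩ := val_exp (V := V) hx'
    have e3 := congrArg V e2
    rw [map_mul, hn, hk, hb2, ← exp_add, exp_inj] at e3
    have n1 : n ≠ -1 := by
      rintro rfl
      exact hno x y ((wb_eqn rfl x y).1 h.1) hn
    have n0 : n < 0 := by
      by_contra h0
      apply hne
      refine hker ((mem_bigG_some h).2 ?_)
      rw [hn, ← exp_zero, exp_le_exp]
      omega
    have h4 : Affine.Point.some x y h + t0 rfl hD ∈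
        (pb V (W := (wb a b).toAffine) rfl hD).ker := by
      refine hker ?_
      rw [e1, mem_bigG_some, hk, ← exp_zero, exp_le_exp]
      omega
    rw [AddMonoidHom.mem_ker, map_add, pb_t0 V hD hb2, add_zero] at h4
    exact hne h4
  rw [h1, AddSubgroup.index_top, mul_one]

/-- **Index one**: `b` is a unit and there is no point with an abscissa of order `0`. -/
theorem index_one (h2 : V 2 < 1) (ha : V a ≤ 1) (hb : V b = 1)
    (hno : ∀ x y : L, y ^ 2 = x ^ 3 + a * x ^ 2 + b * x → V x ≠ 1) :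
    (nsG V (wb a b)).index = 1 := by
  have h1 : nsG V (wb a b) = ⊤ := by
    rw [eq_top_iff]
    rintro P -
    refine AddSubgroup.subset_closure ?_
    rcases P with _ | ⟨x, y, h⟩
    · exact Or.inl rfl
    rw [ns_iff]
    rcases lt_trichotomy (V x) 1 with h3 | h3 | h3
    · right; right
      rw [Valuation.map_add_eq_of_lt_right, hb]
      rw [hb]
      refine Valuation.map_add_lt _ ?_ ?_
      · rw [map_mul, map_pow]
        exact mlt1 (TamG_int.1 (ofNat_mem _ 3))
          (pow_lt_one₀ zero_le h3 (by norm_num))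
      · rw [map_mul, map_mul]
        exact mul_lt_one_of_lt_of_le (mul_lt_one_of_lt_of_le h2 ha) h3.le
    · exact absurd h3 (hno x y ((wb_eqn rfl x y).1 h.1))
    · exact Or.inl h3
  rw [h1, AddSubgroup.index_top]

end

end Pool.Agent.Lib.MP_1a91b9_ntW.T
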