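import Pool.Agent.Lib.MP_1a91b9_ntV.C.TamK

/-!
# The curve `y² = x³ + a x² + b x`: the Kummer map `P ↦ x(P)` modulo squares
-/

set_option autoImplicit false

namespace Pool.Agent.Lib.MP_1a91b9_ntW.T

open WeierstrassCurve WithZero
open Pool.Agent.Lib.MP_1a91b9_ntV.C (par par_sq)
open scoped Classical

/-- The curve `y² = x³ + a x² + b x`. -/
def wb {F : Type*} [Field F] (a b : F) : WeierstrassCurve F := ⟨0, a, 0, b, 0⟩

section

variable {F : Type*} [Field F] {a b : F} {W : Affine F}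

theorem wb_delta (a b : F) : (wb a b).Δ = 16 * b ^ 2 * (a ^ 2 - 4 * b) := by
  simp only [wb, WeierstrassCurve.Δ, WeierstrassCurve.b₂, WeierstrassCurve.b₄, WeierstrassCurve.b₆,
    WeierstrassCurve.b₈]
  ring

theorem wb_eqn (hW : W = wb a b) (x y : F) : W.Equation x y ↔ y ^ 2 = x ^ 3 + a * x ^ 2 + b * x := by
  subst hW
  rw [Affine.equation_iff]
  simp only [wb]
  constructor <;> intro h <;> linear_combination h

/-- The nonsingular points. -/
theorem wb_nons (hW : W = wb a b) (hD : (wb a b).Δ ≠ 0) (x y : F) :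
    W.Nonsingular x y ↔ y ^ 2 = x ^ 3 + a * x ^ 2 + b * x := by
  rw [← wb_eqn hW]
  subst hW
  exact (Affine.equation_iff_nonsingular_of_Δ_ne_zero hD).symm

theorem wb_negY (hW : W = wb a b) (x y : F) : W.negY x y = -y := by
  subst hW
  simp only [Affine.negY, wb]
  ring

theorem b_ne (hD : (wb a b).Δ ≠ 0) : b ≠ 0 := by
  rintro rfl
  apply hD
  rw [wb_delta]
  ring

/-- The point `(0, 0)`. -/
noncomputable def t0 (hW : W = wb a b) (hD : (wb a b).Δ ≠ 0) : W.Point :=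
  Affine.Point.some 0 0 ((wb_nons hW hD 0 0).2 (by ring))

theorem eq_t0 (hW : W = wb a b) (hD : (wb a b).Δ ≠ 0) {y : F} (h : W.Nonsingular 0 y) :
    Affine.Point.some 0 y h = t0 hW hD := by
  rw [t0, Affine.Point.some.injEq]
  refine ⟨rfl, ?_⟩
  have hy := (wb_eqn hW _ y).1 h.1
  have h1 : y ^ 2 = 0 := by rw [hy]; ring
  exact pow_eq_zero_iff two_ne_zero |>.1 h1

theorem t0_two (hW : W = wb a b) (hD : (wb a b).Δ ≠ 0) : t0 hW hD + t0 hW hD = 0 := by
  rw [t0]
  refine Affine.Point.add_of_Y_eq rfl ?_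
  rw [wb_negY hW]
  ring

theorem neg_t0 (hW : W = wb a b) (hD : (wb a b).Δ ≠ 0) : -t0 hW hD = t0 hW hD :=
  neg_eq_of_add_eq_zero_left (t0_two hW hD)

/-- The Kummer map: the abscissa, and `b` for `(0, 0)`. -/
noncomputable def kb (b : F) : W.Point → F
  | .zero => 1
  | .some x _ _ => if x = 0 then b else x

theorem kb_zero (b : F) : kb b (0 : W.Point) = 1 := rfl

theorem kb_some {x y : F} (h : W.Nonsingular x y) (hx : x ≠ 0) :
    kb b (Affine.Point.some x y h) = x := if_neg hx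

theorem kb_some' {y : F} (h : W.Nonsingular 0 y) :
    kb b (Affine.Point.some 0 y h) = b := if_pos rfl

theorem kb_ne (hb : b ≠ 0) (P : W.Point) : kb b P ≠ 0 := by
  rcases P with _ | ⟨x, y, h⟩
  · exact one_ne_zero
  · by_cases hx : x = 0
    · subst hx
      rw [kb_some']
      exact hb
    · rw [kb_some h hx]
      exact hx

theorem kb_neg (P : W.Point) : kb b (-P) = kb b P := by
  rcases P with _ | ⟨x, y, h⟩
  · rfl
  · rw [Affine.Point.neg_some]
    rfl

/-- three collinear points -/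
theorem kb_prod (hW : W = wb a b) {x₁ x₂ y₁ y₂ : F}
    (h₁ : W.Equation x₁ y₁) (h₂ : W.Equation x₂ y₂) (hxy : ¬(x₁ = x₂ ∧ y₁ = W.negY x₂ y₂)) :
    x₁ * x₂ * W.addX x₁ x₂ (W.slope x₁ x₂ y₁ y₂) = (y₁ - W.slope x₁ x₂ y₁ y₂ * x₁) ^ 2 := by
  have h := Affine.addPolynomial_slope h₁ h₂ hxy
  have h1 := congrArg (Polynomial.eval 0) h
  rw [Affine.addPolynomial_eq] at h1
  subst hW
  simp only [Cubic.toPoly, Polynomial.eval_neg, Polynomial.eval_add, Polynomial.eval_mul,
    Polynomial.eval_C, Polynomial.eval_pow, Polynomial.eval_X, Polynomial.eval_sub, wb] at h1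
  simp only [wb] at *
  generalize Affine.slope _ x₁ x₂ y₁ y₂ = l at *
  linear_combination -h1

/-- the first coordinate of `P + (0, 0)` -/
theorem add_t0 (hW : W = wb a b) (hD : (wb a b).Δ ≠ 0) {x y : F}
    (h : W.Nonsingular x y) (hx : x ≠ 0) : ∃ (x' y' : F) (h' : W.Nonsingular x' y'),
      Affine.Point.some x y h + t0 hW hD = Affine.Point.some x' y' h' ∧ x' * x = b := by
  rw [t0, Affine.Point.add_of_X_ne hx]
  refine ⟨_, _, _, rfl, ?_⟩
  have hy := (wb_eqn hW x y).1 h.1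
  rw [Affine.slope_of_X_ne hx, sub_zero, sub_zero, Affine.addX]
  subst hW
  simp only [wb]
  field_simp
  linear_combination hy

theorem kb_t0 (hW : W = wb a b) (hD : (wb a b).Δ ≠ 0) : kb b (t0 hW hD) = b := kb_some' _

theorem kb_add_t0 (hW : W = wb a b) (hD : (wb a b).Δ ≠ 0) (P : W.Point) :
    ∃ w : F, w ≠ 0 ∧ kb b (P + t0 hW hD) * kb b P * kb b (t0 hW hD) = w ^ 2 := by
  refine ⟨b, b_ne hD, ?_⟩
  rcases P with _ | ⟨x, y, h⟩
  · have e1 : (Affine.Point.zero : W.Point) + t0 hW hD = t0 hW hD := zero_add _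
    rw [e1, kb_t0]
    change _ * 1 * _ = _
    ring
  · by_cases hx : x = 0
    · subst hx
      rw [eq_t0 hW hD h, t0_two, kb_t0, kb_zero]
      ring
    · obtain ⟨x', y', h', e1, e2⟩ := add_t0 hW hD h hx
      have hx' : x' ≠ 0 := by
        rintro rfl
        rw [zero_mul] at e2
        exact b_ne hD e2.symm
      rw [e1, kb_some h' hx', kb_some h hx, kb_t0, e2]
      ring

/-- **The Kummer map is a homomorphism** modulo squares. -/
theorem kb_add (hW : W = wb a b) (hD : (wb a b).Δ ≠ 0) (P Q : W.Point) :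
    ∃ w : F, w ≠ 0 ∧ kb b (P + Q) * kb b P * kb b Q = w ^ 2 := by
  have hb := b_ne hD
  by_cases hP0 : P = 0
  · subst hP0
    refine ⟨kb b Q, kb_ne hb Q, ?_⟩
    rw [zero_add, kb_zero]
    ring
  by_cases hQ0 : Q = 0
  · subst hQ0
    refine ⟨kb b P, kb_ne hb P, ?_⟩
    rw [add_zero, kb_zero]
    ring
  by_cases hPQ : P + Q = 0
  · have e1 : Q = -P := (neg_eq_of_add_eq_zero_right hPQ).symm
    subst e1
    refine ⟨kb b P, kb_ne hb P, ?_⟩
    rw [hPQ, kb_neg, kb_zero]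
    ring
  by_cases hQT : Q = t0 hW hD
  · subst hQT
    exact kb_add_t0 hW hD P
  by_cases hPT : P = t0 hW hD
  · subst hPT
    obtain ⟨w, hw, h⟩ := kb_add_t0 hW hD Q
    refine ⟨w, hw, ?_⟩
    rw [add_comm, ← h]
    ring
  by_cases hS : P + Q = t0 hW hD
  · have e1 : Q = -P + t0 hW hD := by rw [← hS]; abel
    obtain ⟨w, hw, h⟩ := kb_add_t0 hW hD (-P)
    refine ⟨w, hw, ?_⟩
    rw [← e1, kb_neg] at h
    rw [hS, ← h]
    ring
  have nT : ∀ (x y : F) (h : W.Nonsingular x y), Affine.Point.some x y h ≠ t0 hW hD → x ≠ 0 := by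
    rintro x y h hne rfl
    exact hne (eq_t0 hW hD h)
  rcases P with _ | ⟨x₁, y₁, h₁⟩
  · exact absurd rfl hP0
  rcases Q with _ | ⟨x₂, y₂, h₂⟩
  · exact absurd rfl hQ0
  have hxy : ¬(x₁ = x₂ ∧ y₁ = W.negY x₂ y₂) := fun h =>
    hPQ (Affine.Point.add_of_Y_eq h.1 h.2)
  rw [Affine.Point.add_some hxy] at hS ⊢
  have n1 := nT _ _ _ hPT
  have n2 := nT _ _ _ hQT
  have n3 := nT _ _ _ hS
  have h := kb_prod hW h₁.1 h₂.1 hxy
  rw [kb_some _ n1, kb_some _ n2, kb_some _ n3]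
  refine ⟨y₁ - W.slope x₁ x₂ y₁ y₂ * x₁, fun h0 => ?_, by rw [← h]; ring⟩
  rw [h0, zero_pow two_ne_zero] at h
  exact mul_ne_zero (mul_ne_zero n1 n2) n3 h

/-- The homomorphism given by a character `g` of `Fˣ` which is trivial on the squares. -/
noncomputable def kbHom (hW : W = wb a b) (hD : (wb a b).Δ ≠ 0)
    {A : Type*} [AddCommGroup A] (g : Fˣ →* Multiplicative A) (hg : ∀ u, g (u ^ 2) = 1) :
    W.Point →+ A where
  toFun P := (g (Units.mk0 (kb b P) (kb_ne (b_ne hD) P))).toAdd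
  map_zero' := by
    have e1 : Units.mk0 (kb b (0 : W.Point)) (kb_ne (b_ne hD) 0) = 1 := Units.ext rfl
    rw [e1, map_one]
    rfl
  map_add' P Q := by
    obtain ⟨w, hw, h⟩ := kb_add hW hD P Q
    have e1 : Units.mk0 (kb b (P + Q)) (kb_ne (b_ne hD) _) *
        Units.mk0 (kb b P) (kb_ne (b_ne hD) _) *
        Units.mk0 (kb b Q) (kb_ne (b_ne hD) _) = Units.mk0 w hw ^ 2 := Units.ext h
    have e2 := congrArg g e1
    rw [map_mul, map_mul, hg] at e2
    have e3 : ∀ u : Fˣ, (g u).toAdd + (g u).toAdd = 0 := by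
      intro u
      have h1 := hg u
      rw [pow_two, map_mul] at h1
      exact congrArg Multiplicative.toAdd h1
    have e4 : (g (Units.mk0 (kb b (P + Q)) (kb_ne (b_ne hD) _))).toAdd +
        (g (Units.mk0 (kb b P) (kb_ne (b_ne hD) _))).toAdd +
        (g (Units.mk0 (kb b Q) (kb_ne (b_ne hD) _))).toAdd = 0 := congrArg Multiplicative.toAdd e2
    have e5 := e3 (Units.mk0 (kb b P) (kb_ne (b_ne hD) _))
    have e6 := e3 (Units.mk0 (kb b Q) (kb_ne (b_ne hD) _))
    have key : ∀ a b c : A, a + b + c = 0 → b + b = 0 → c + c = 0 → a = b + c := by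
      intro a b c h1 h2 h3
      have h4 : a = (a + b + c) + (b + c) - (b + b) - (c + c) := by abel
      rw [h4, h1, h2, h3]
      abel
    exact key _ _ _ e4 e5 e6

theorem kbHom_apply (hW : W = wb a b) (hD : (wb a b).Δ ≠ 0)
    {A : Type*} [AddCommGroup A] (g : Fˣ →* Multiplicative A) (hg : ∀ u, g (u ^ 2) = 1)
    (P : W.Point) :
    kbHom hW hD g hg P = (g (Units.mk0 (kb b P) (kb_ne (b_ne hD) P))).toAdd := rfl

end

section

variable {L : Type*} [Field L] (V : Valuation L ℤᵐ⁰) {a b : L} {W : Affine L}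

/-- The parity of the order of the abscissa. -/
noncomputable def pb (hW : W = wb a b) (hD : (wb a b).Δ ≠ 0) : W.Point →+ ZMod 2 :=
  kbHom hW hD (par V) (par_sq V)

theorem pb_apply (hW : W = wb a b) (hD : (wb a b).Δ ≠ 0) (P : W.Point) :
    pb V hW hD P = ((WithZero.log (V (kb b P)) : ℤ) : ZMod 2) := rfl

theorem pb_exp (hW : W = wb a b) (hD : (wb a b).Δ ≠ 0) {P : W.Point} {n : ℤ}
    (h : V (kb b P) = exp n) : pb V hW hD P = (n : ZMod 2) := by
  rw [pb_apply, h, log_exp]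

end

end Pool.Agent.Lib.MP_1a91b9_ntW.T
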