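import Pool.Agent.Lib.MP_1a91b9_ntW.T.Ind
import Pool.Agent.Lib.MP_1a91b9_ntV.C.Tam2

/-!
# The completion at `lam`: the curves `y² = x³ + 4 d x² + 2 d² x`, `d` a unit
-/

set_option autoImplicit false

namespace Pool.Agent.Lib.MP_1a91b9_ntW.T

open WeierstrassCurve WithZero
open Pool.Agent.Lib.MP_1a91b9_ntH.C (nsSet nsG)
open Pool.Agent.Lib.MP_1a91b9_ntH.C.TamT (Itg)
open Pool.Agent.Lib.MP_1a91b9_ntV.C (val_exp even_of_sq zmod2_even exp_neg_lt lt_exp lt_one_exp
  TamG_int NoDown odd_not_sq Tam2_le Tam2_lt)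
open scoped Classical

/-- The properties of the completion at `lam` which are used. -/
structure QL {L : Type*} [Field L] (V : Valuation L ℤᵐ⁰) (l : L) : Prop where
  val : V l = exp (-1 : ℤ)
  sq2 : l ^ 2 = -2
  res : ∀ z, V z ≤ 1 → V z < 1 ∨ V (z - 1) < 1
  sq : ∀ z, V (z - 1) ≤ exp (-5 : ℤ) → IsSquare z

section

variable {L : Type*} [Field L] {V : Valuation L ℤᵐ⁰} {l : L}

theorem QL.l0 (h : QL V l) : l ≠ 0 := by
  intro h0
  have h1 := h.val
  rw [h0, map_zero] at h1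
  exact exp_ne_zero h1.symm

theorem QL.two (h : QL V l) : V 2 = exp (-2 : ℤ) := by
  have e : (2 : L) = -l ^ 2 := by rw [h.sq2]; ring
  rw [e, Valuation.map_neg, map_pow, h.val, ← exp_nsmul]
  rfl

theorem QL.four (h : QL V l) : V 4 = exp (-4 : ℤ) := by
  have e : (4 : L) = 2 * 2 := by norm_num
  rw [e, map_mul, h.two, ← exp_add]
  rfl

theorem QL.two0 (h : QL V l) : (2 : L) ≠ 0 := by
  intro h0
  have h1 := h.two
  rw [h0, map_zero] at h1
  exact exp_ne_zero h1.symm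

theorem QL.three (h : QL V l) : V (3 : L) = 1 := v3_two (by rw [h.two]; exact Tam2_lt (by norm_num))

theorem QL.mem (h : QL V l) : l ∈ V.integer := by
  rw [TamG_int, h.val]
  exact Tam2_le (by norm_num)

theorem v_pow {z : L} {n : ℤ} (h : V z = exp n) (k : ℕ) : V (z ^ k) = exp (k * n) := by
  rw [map_pow, h, ← exp_nsmul, nsmul_eq_mul]

theorem v_mul {z w : L} {n m : ℤ} (h : V z = exp n) (h' : V w = exp m) : V (z * w) = exp (n + m) := by
  rw [map_mul, h, h', exp_add]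

theorem v_mul_le {z w : L} {n m : ℤ} (h : V z ≤ exp n) (h' : V w ≤ exp m) :
    V (z * w) ≤ exp (n + m) := by
  rw [map_mul, exp_add]
  exact mul_le_mul' h h'

theorem v_unit {z : L} (h : V z = 1) : V z = exp (0 : ℤ) := by rw [h, exp_zero]

theorem v_ne {z : L} {n : ℤ} (h : V z = exp n) : z ≠ 0 := by
  rintro rfl
  rw [map_zero] at h
  exact exp_ne_zero h.symm

/-- the square of a unit is `1` modulo `lam ^ 2` -/
theorem QL.unit_sq (h : QL V l) {w : L} (hw : V w = 1) : V (w ^ 2 - 1) ≤ exp (-2 : ℤ) := by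
  have h1 : V (w - 1) ≤ exp (-1 : ℤ) := by
    rcases h.res w hw.le with h1 | h1
    · exact absurd h1 (by rw [hw]; exact lt_irrefl _)
    · exact lt_one_exp h1
  have h2 : V (w + 1) ≤ exp (-1 : ℤ) := by
    have e1 : w + 1 = (w - 1) + 2 := by ring
    rw [e1]
    refine Valuation.map_add_le _ h1 ?_
    rw [h.two]
    exact exp_le_exp.2 (by norm_num)
  have e1 : w ^ 2 - 1 = (w - 1) * (w + 1) := by ring
  rw [e1]
  exact v_mul_le h1 h2

theorem v_unit_sq {w : L} (h : V (w ^ 2) = 1) : V w = 1 := by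
  rw [map_pow] at h
  exact (pow_eq_one_iff.1 h).resolve_right (by norm_num)

/-- an odd order is not the order of a square -/
theorem odd_sq {z w : L} {n : ℤ} (hz : V z = exp n) (h : z = w ^ 2) (hn : n % 2 = 1) : False := by
  have hw : w ≠ 0 := by
    rintro rfl
    rw [zero_pow two_ne_zero] at h
    exact v_ne hz h
  obtain ⟨m, hm⟩ := val_exp (V := V) hw
  rw [h, v_pow hm, exp_inj] at hz
  push_cast at hz
  omega

/-! ### the case `d` a unit -/

variable {d : L}

theorem wL_delta (d : L) : (wb (4 * d) (2 * d ^ 2)).Δ = 512 * d ^ 6 := by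
  rw [wb_delta]
  ring

theorem QL.delta_ne (h : QL V l) (hd : V d = 1) : (wb (4 * d) (2 * d ^ 2)).Δ ≠ 0 := by
  rw [wL_delta]
  have e : (512 : L) = 2 ^ 9 := by norm_num
  rw [e]
  refine mul_ne_zero (pow_ne_zero _ h.two0) (pow_ne_zero _ ?_)
  exact v_ne (v_unit hd)

theorem QL.va (h : QL V l) (hd : V d = 1) : V (4 * d) ≤ 1 := by
  rw [map_mul, h.four, hd, mul_one]
  exact Tam2_le (by norm_num)

theorem QL.vb (h : QL V l) (hd : V d = 1) : V (2 * d ^ 2) = exp (-2 : ℤ) := by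
  rw [map_mul, h.two, map_pow, hd, one_pow, mul_one]

/-- the equation `y² = x³ + 4 d x² + 2 d² x` is minimal -/
theorem QL.noDown (h : QL V l) (hd : V d = 1) : NoDown V (wb (4 * d) (2 * d ^ 2)) := by
  intro C hC hu
  have hu0 : (C.u : L) ≠ 0 := C.u.ne_zero
  have hui : ((C.u⁻¹ : Lˣ) : L) = (C.u : L)⁻¹ := by simp
  have hu1 : V (C.u : L) ≤ exp (-1 : ℤ) := lt_one_exp hu
  obtain ⟨-, -, -, c8⟩ := Pool.Agent.Lib.MP_1a91b9_ntV.C.Itg.b hC
  have hd' := v_unit hd
  have e8 : (C.u : L) ^ 8 * (C • wb (4 * d) (2 * d ^ 2)).b₈ =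
      -(4 * d ^ 4) + (12 * C.r ^ 2 * d ^ 2 + (16 * C.r ^ 3 * d + 3 * C.r ^ 4)) := by
    rw [variableChange_b₈, hui]
    simp only [wb, WeierstrassCurve.b₂, WeierstrassCurve.b₄, WeierstrassCurve.b₆, WeierstrassCurve.b₈]
    field_simp
    ring
  have h8 : V (-(4 * d ^ 4) + (12 * C.r ^ 2 * d ^ 2 + (16 * C.r ^ 3 * d + 3 * C.r ^ 4))) ≤
      exp (-8 : ℤ) := by
    rw [← e8, map_mul, map_pow]
    calc V (C.u : L) ^ 8 * V (C • wb (4 * d) (2 * d ^ 2)).b₈ ≤ exp (-1 : ℤ) ^ 8 * 1 :=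
          mul_le_mul' (pow_le_pow_left₀ zero_le hu1 8) c8
      _ = exp (-8 : ℤ) := by
        rw [mul_one, ← exp_nsmul]
        rfl
  have e12 : (12 : L) = 4 * 3 := by norm_num
  have e16 : (16 : L) = 4 * 4 := by norm_num
  have v4 : V (4 * d ^ 4) = exp (-4 : ℤ) := by
    have h1 := v_mul h.four (v_pow hd' 4)
    rw [h1]
    norm_num
  have v3 := v_unit h.three
  have v12 : V (12 : L) = exp (-4 : ℤ) := by rw [e12, v_mul h.four v3]; rfl
  have v16 : V (16 : L) = exp (-8 : ℤ) := by rw [e16, v_mul h.four h.four]; rfl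
  have hr0 : C.r ≠ 0 := by
    intro h0
    rw [h0] at h8
    have e : -(4 * d ^ 4) + (12 * 0 ^ 2 * d ^ 2 + (16 * 0 ^ 3 * d + 3 * 0 ^ 4)) = -(4 * d ^ 4) := by
      ring
    rw [e, Valuation.map_neg, v4, exp_le_exp] at h8
    norm_num at h8
  obtain ⟨n, hn⟩ := val_exp (V := V) hr0
  have p1 : V (12 * C.r ^ 2 * d ^ 2) = exp (-4 + 2 * n) := by
    rw [v_mul (v_mul v12 (v_pow hn 2)) (v_pow hd' 2)]
    congr 1
    push_cast
    ring
  have p2 : V (16 * C.r ^ 3 * d) = exp (-8 + 3 * n) := by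
    rw [v_mul (v_mul v16 (v_pow hn 3)) hd']
    congr 1
    push_cast
    ring
  have p3 : V (3 * C.r ^ 4) = exp (4 * n) := by
    rw [v_mul v3 (v_pow hn 4)]
    congr 1
    push_cast
    ring
  have hn1 : n = -1 := by
    by_contra hne
    rcases lt_or_gt_of_ne hne with h1 | h1
    · have h2 : V (12 * C.r ^ 2 * d ^ 2 + (16 * C.r ^ 3 * d + 3 * C.r ^ 4)) < exp (-4 : ℤ) := by
        refine Valuation.map_add_lt _ ?_ (Valuation.map_add_lt _ ?_ ?_)
        · rw [p1, exp_lt_exp]; omega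
        · rw [p2, exp_lt_exp]; omega
        · rw [p3, exp_lt_exp]; omega
      rw [Valuation.map_add_eq_of_lt_left, Valuation.map_neg, v4, exp_le_exp] at h8
      · norm_num at h8
      · rw [Valuation.map_neg, v4]
        exact h2
    · have e : -(4 * d ^ 4) + (12 * C.r ^ 2 * d ^ 2 + (16 * C.r ^ 3 * d + 3 * C.r ^ 4)) =
          3 * C.r ^ 4 + (-(4 * d ^ 4) + (12 * C.r ^ 2 * d ^ 2 + 16 * C.r ^ 3 * d)) := by ring
      have h2 : V (-(4 * d ^ 4) + (12 * C.r ^ 2 * d ^ 2 + 16 * C.r ^ 3 * d)) < exp (4 * n) := by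
        refine Valuation.map_add_lt _ ?_ (Valuation.map_add_lt _ ?_ ?_)
        · rw [Valuation.map_neg, v4, exp_lt_exp]; omega
        · rw [p1, exp_lt_exp]; omega
        · rw [p2, exp_lt_exp]; omega
      rw [e, Valuation.map_add_eq_of_lt_left, p3, exp_le_exp] at h8
      · omega
      · rw [p3]
        exact h2
  subst hn1
  have e2 : (C.u : L) ^ 2 * (C • wb (4 * d) (2 * d ^ 2)).a₂ = 4 * d + 3 * C.r - C.s ^ 2 := by
    rw [variableChange_a₂, hui]
    simp only [wb]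
    field_simp
    ring
  have h2 : V (4 * d + 3 * C.r - C.s ^ 2) ≤ exp (-2 : ℤ) := by
    rw [← e2, map_mul, map_pow]
    calc V (C.u : L) ^ 2 * V (C • wb (4 * d) (2 * d ^ 2)).a₂ ≤ exp (-1 : ℤ) ^ 2 * 1 :=
          mul_le_mul' (pow_le_pow_left₀ zero_le hu1 2) hC.a2
      _ = exp (-2 : ℤ) := by
        rw [mul_one, ← exp_nsmul]
        rfl
  have v3r : V (3 * C.r) = exp (-1 : ℤ) := by
    rw [v_mul v3 hn]
    rfl
  have v4d : V (4 * d) = exp (-4 : ℤ) := by
    rw [v_mul h.four hd']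
    rfl
  have e3 : C.s ^ 2 = 3 * C.r + (4 * d - (4 * d + 3 * C.r - C.s ^ 2)) := by ring
  have h3 : V (C.s ^ 2) = exp (-1 : ℤ) := by
    rw [e3, Valuation.map_add_eq_of_lt_left, v3r]
    rw [v3r]
    refine Valuation.map_sub_lt _ ?_ ?_
    · rw [v4d, exp_lt_exp]
      norm_num
    · exact h2.trans_lt (exp_lt_exp.2 (by norm_num))
  exact odd_sq h3 rfl (by norm_num)

/-- a point with an abscissa of order `1` -/
theorem QL.point (h : QL V l) (hd : V d = 1) {x y : L}
    (he : y ^ 2 = x ^ 3 + 4 * d * x ^ 2 + 2 * d ^ 2 * x) (hx : V x = exp (-1 : ℤ)) :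
    V (d - 1) ≤ exp (-2 : ℤ) := by
  have hl0 := h.l0
  have hd' := v_unit hd
  obtain ⟨x1, hx1⟩ : ∃ x1 : L, x = l * x1 := ⟨x / l, by field_simp⟩
  subst hx1
  have v1 : V x1 = 1 := by
    rw [map_mul, h.val] at hx
    have h1 : exp (-1 : ℤ) * V x1 = exp (-1 : ℤ) * 1 := by rw [hx, mul_one]
    exact mul_left_cancel₀ exp_ne_zero h1
  have v1' := v_unit v1
  obtain ⟨w, hw⟩ : ∃ w : L, x1 = d + w := ⟨x1 - d, by ring⟩
  have hres : ∀ z : L, V z = 1 → V (z - 1) < 1 := by
    intro z hz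
    rcases h.res z hz.le with h1 | h1
    · rw [hz] at h1
      exact absurd h1 (lt_irrefl _)
    · exact h1
  have vw : V w ≤ exp (-1 : ℤ) := by
    refine lt_one_exp ?_
    have e : w = (x1 - 1) - (d - 1) := by rw [hw]; ring
    rw [e]
    exact Valuation.map_sub_lt _ (hres _ v1) (hres _ hd)
  have e1 : y ^ 2 = 2 * l * x1 * (-w ^ 2 + (-2 * d * w + 2 * d * l * x1)) := by
    rw [he, hw]
    linear_combination ((d + w) ^ 3 * l + 4 * d * (d + w) ^ 2 - 4 * d * (d + w) ^ 2) * h.sq2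
  rcases vw.lt_or_eq with h1 | h1
  · have h2 : V w ≤ exp (-2 : ℤ) := lt_exp h1
    obtain ⟨z, hz⟩ : ∃ z : L, w = 2 * z := ⟨w / 2, by have := h.two0; field_simp⟩
    subst hz
    have vz : V z ≤ 1 := by
      rw [map_mul, h.two] at h2
      have h3 : exp (-2 : ℤ) * V z ≤ exp (-2 : ℤ) * 1 := by rwa [mul_one]
      exact (mul_le_mul_iff_of_pos_left exp_pos).1 h3
    have hx0 : x1 ≠ 0 := v_ne v1'
    have h20 := h.two0
    have e2 : (y / (2 * l * x1)) ^ 2 = d + l * (z * (d + z)) / x1 := by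
      have e3 : y ^ 2 = (2 * l * x1) ^ 2 * (d + l * (z * (d + z)) / x1) := by
        rw [e1]
        field_simp
        rw [hw]
        linear_combination (-z * (d + z)) * h.sq2
      rw [div_pow, e3]
      field_simp
    have vzz : V (z * (d + z)) ≤ exp (-1 : ℤ) := by
      refine lt_one_exp ?_
      have vdz : V (d + z) ≤ 1 := Valuation.map_add_le _ hd.le vz
      rw [map_mul]
      rcases h.res z vz with h3 | h3
      · exact mul_lt_one_of_lt_of_le h3 vdz
      · refine mlt1 vz ?_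
        have e : d + z = (d - 1) + ((z - 1) + 2) := by ring
        rw [e]
        refine Valuation.map_add_lt _ (hres _ hd) (Valuation.map_add_lt _ h3 ?_)
        rw [h.two]
        exact Tam2_lt (by norm_num)
    have h4 : V (l * (z * (d + z)) / x1) ≤ exp (-2 : ℤ) := by
      rw [map_div₀, v1, div_one]
      exact v_mul_le h.val.le vzz
    have h5 : V ((y / (2 * l * x1)) ^ 2) = 1 := by
      rw [e2, Valuation.map_add_eq_of_lt_left, hd]
      rw [hd]
      exact h4.trans_lt (Tam2_lt (by norm_num))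
    have h6 := h.unit_sq (v_unit_sq h5)
    have e3 : d - 1 = ((y / (2 * l * x1)) ^ 2 - 1) - l * (z * (d + z)) / x1 := by
      rw [e2]
      ring
    rw [e3]
    exact Valuation.map_sub_le _ h6 h4
  · exfalso
    have h3 : V (-w ^ 2 + (-2 * d * w + 2 * d * l * x1)) = exp (-2 : ℤ) := by
      have h4 : V (-w ^ 2) = exp (-2 : ℤ) := by
        rw [Valuation.map_neg, v_pow h1]
        rfl
      rw [Valuation.map_add_eq_of_lt_left, h4]
      rw [h4]
      refine Valuation.map_add_lt _ ?_ ?_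
      · have e : -2 * d * w = -(2 * d * w) := by ring
        rw [e, Valuation.map_neg, v_mul (v_mul h.two hd') h1, exp_lt_exp]
        norm_num
      · rw [v_mul (v_mul (v_mul h.two hd') h.val) v1', exp_lt_exp]
        norm_num
    have h4 : V (2 * l * x1 * (-w ^ 2 + (-2 * d * w + 2 * d * l * x1))) = exp (-5 : ℤ) := by
      rw [v_mul (v_mul (v_mul h.two h.val) v1') h3]
      rfl
    exact odd_sq h4 e1.symm (by norm_num)

/-- a quadratic equation -/
theorem QL.root (h : QL V l) {β γ : L} (hβ : V β = 1) (hγ : V γ < 1) :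
    ∃ z : L, V z ≤ 1 ∧ z ^ 2 + β * z - γ = 0 := by
  have hβ0 : β ≠ 0 := v_ne (v_unit hβ)
  have h20 := h.two0
  obtain ⟨s, hs⟩ := h.sq (1 + 4 * γ / β ^ 2) (by
    rw [add_sub_cancel_left, map_div₀, map_pow, hβ, one_pow, div_one]
    exact v_mul_le (n := -4) (m := -1) h.four.le (lt_one_exp hγ))
  refine ⟨β * (s - 1) / 2, ?_, ?_⟩
  · have h1 : V ((s - 1) * (s + 1)) ≤ exp (-5 : ℤ) := by
      have e : (s - 1) * (s + 1) = 4 * γ / β ^ 2 := by linear_combination -hs
      rw [e, map_div₀, map_pow, hβ, one_pow, div_one]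
      exact v_mul_le (n := -4) (m := -1) h.four.le (lt_one_exp hγ)
    have h2 : V (s - 1) ≤ exp (-2 : ℤ) := by
      by_contra hc
      rw [not_le] at hc
      have h3 : V (s + 1) = V (s - 1) := by
        have e : s + 1 = (s - 1) + 2 := by ring
        rw [e, Valuation.map_add_eq_of_lt_left]
        rw [h.two]
        exact hc
      rw [map_mul, h3] at h1
      have h4 : exp (-2 : ℤ) * exp (-2 : ℤ) ≤ V (s - 1) * V (s - 1) := mul_le_mul' hc.le hc.le
      rw [← exp_add] at h4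
      have h5 := h4.trans h1
      rw [exp_le_exp] at h5
      norm_num at h5
    rw [map_div₀, map_mul, hβ, one_mul, h.two, div_le_one₀ exp_pos]
    exact h2
  · have e : β ^ 2 * (s * s) = β ^ 2 + 4 * γ := by
      rw [← hs]
      field_simp
    field_simp
    linear_combination e

/-- the existence of a point with an abscissa of order `1` -/
theorem QL.exists_point (h : QL V l) (hd : V d = 1) (hd1 : V (d - 1) ≤ exp (-2 : ℤ)) :
    ∃ x y : L, y ^ 2 = x ^ 3 + 4 * d * x ^ 2 + 2 * d ^ 2 * x ∧ V x = exp (-1 : ℤ) := by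
  have hl0 := h.l0
  have vl : V ((1 - d) / l) ≤ exp (-1 : ℤ) := by
    rw [map_div₀, h.val, div_le_iff₀ exp_pos, ← exp_add, Valuation.map_sub_swap]
    exact hd1
  have v1 : V (l * (1 - d)) < 1 := by
    rw [map_mul, h.val, Valuation.map_sub_swap]
    exact mul_lt_one_of_lt_of_le exp_neg_lt (hd1.trans (Tam2_le (by norm_num)))
  obtain ⟨z, hz, hz2⟩ := h.root (β := d + l * (1 - d)) (γ := d * ((1 - d) / l)) (by
    rw [Valuation.map_add_eq_of_lt_left, hd]
    rw [hd]
    exact v1) (by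
    rw [map_mul, hd, one_mul]
    exact vl.trans_lt exp_neg_lt)
  refine ⟨l * (d + 2 * z), 2 * l * (d + 2 * z), ?_, ?_⟩
  · have e : l * z ^ 2 + l * (d + l * (1 - d)) * z - d * (1 - d) = 0 := by
      have e1 := congrArg (fun t => l * t) hz2
      simp only [mul_zero] at e1
      rw [← e1]
      field_simp
    linear_combination (l * (d + 2 * z) * (4 * l * (1 - d) * z - d ^ 2)) * h.sq2 -
      4 * l ^ 2 * (d + 2 * z) * e
  · rw [map_mul, h.val, Valuation.map_add_eq_of_lt_left, hd, mul_one]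
    rw [hd, map_mul, h.two]
    exact mul_lt_one_of_lt_of_le (Tam2_lt (by norm_num)) hz

end

end Pool.Agent.Lib.MP_1a91b9_ntW.T
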