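import Pool.Agent.Lib.MP_1a91b9_ntW.T.Lam

/-!
# The completion at `lam`: the curves `y² = x³ + lam³ d x² - d² x`, `d` a unit

This is the equation `y² = x³ + 4 D x² + 2 D² x`, `D = lam d`, after the change `u = lam`.
-/

set_option autoImplicit false

namespace Pool.Agent.Lib.MP_1a91b9_ntW.T

open WeierstrassCurve WithZero
open Pool.Agent.Lib.MP_1a91b9_ntH.C (nsSet nsG)
open Pool.Agent.Lib.MP_1a91b9_ntH.C.TamT (Itg)
open Pool.Agent.Lib.MP_1a91b9_ntV.C (val_exp even_of_sq zmod2_even exp_neg_lt lt_exp lt_one_exp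
  TamG_int NoDown odd_not_sq Tam2_le Tam2_lt)
open scoped Classical

section

variable {L : Type*} [Field L] {V : Valuation L ℤᵐ⁰} {l d : L}

theorem cong_mul {x x' y y' : L} {n : ℤ} (hx' : V x' ≤ 1) (hy : V y ≤ 1)
    (h1 : V (x - x') ≤ exp n) (h2 : V (y - y') ≤ exp n) : V (x * y - x' * y') ≤ exp n := by
  have e : x * y - x' * y' = (x - x') * y + x' * (y - y') := by ring
  rw [e]
  refine Valuation.map_add_le _ ?_ ?_
  · rw [map_mul]
    exact (mul_le_of_le_one_right' hy).trans h1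
  · rw [map_mul]
    exact (mul_le_of_le_one_left' hx').trans h2

/-- the division by `lam` -/
theorem QL.div (h : QL V l) {z : L} (hz : V z < 1) : ∃ w : L, z = l * w ∧ V w ≤ 1 := by
  have hl0 := h.l0
  refine ⟨z / l, by field_simp, ?_⟩
  rw [map_div₀, h.val, div_le_one₀ exp_pos]
  exact lt_one_exp hz

theorem QL.resid (h : QL V l) {z : L} (hz : V z = 1) : ∃ w : L, z = 1 + l * w ∧ V w ≤ 1 := by
  have h1 : V (z - 1) < 1 := by
    rcases h.res z hz.le with h1 | h1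
    · rw [hz] at h1
      exact absurd h1 (lt_irrefl _)
    · exact h1
  obtain ⟨w, hw, hw1⟩ := h.div h1
  exact ⟨w, by rw [← hw]; ring, hw1⟩

/-- the square modulo `lam ^ 2` -/
theorem QL.sq_mod (h : QL V l) {z : L} (hz : V z ≤ 1) :
    (V z < 1 ∧ V (z ^ 2) ≤ exp (-2 : ℤ)) ∨ (V (z - 1) < 1 ∧ V (z ^ 2 - 1) ≤ exp (-2 : ℤ)) := by
  rcases h.res z hz with h1 | h1
  · refine Or.inl ⟨h1, ?_⟩
    have h2 := lt_one_exp h1
    rw [map_pow, pow_two]
    exact (mul_le_mul' h2 h2).trans (by rw [← exp_add]; exact exp_le_exp.2 (by norm_num))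
  · refine Or.inr ⟨h1, h.unit_sq ?_⟩
    have e : z = (z - 1) + 1 := by ring
    rw [e, Valuation.map_add_eq_of_lt_right, map_one]
    rwa [map_one]

theorem v_one_lt {z : L} (hz : V (z - 1) < 1) : V z = 1 := by
  have e : z = (z - 1) + 1 := by ring
  rw [e, Valuation.map_add_eq_of_lt_right, map_one]
  rwa [map_one]

/-- the last step, first case -/
theorem QL.case1 (h : QL V l) {e t : L} (he : V e ≤ 1) (ht : V t ≤ 1)
    (hG : V ((e ^ 2 + 1 - t ^ 2) + l * (e + t)) ≤ exp (-2 : ℤ)) : False := by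
  have h21 : exp (-2 : ℤ) < exp (-1 : ℤ) := exp_lt_exp.2 (by norm_num)
  have h20 : exp (-2 : ℤ) < (1 : ℤᵐ⁰) := Tam2_lt (by norm_num)
  -- the sum of a unit
  have k1 : V (e + t) ≤ 1 := Valuation.map_add_le _ he ht
  have k2 : V (l * (e + t)) < 1 := by
    rw [map_mul, h.val]
    exact mul_lt_one_of_lt_of_le exp_neg_lt k1
  rcases h.sq_mod he with ⟨a1, a2⟩ | ⟨a1, a2⟩ <;> rcases h.sq_mod ht with ⟨b1, b2⟩ | ⟨b1, b2⟩
  · have e1 : (e ^ 2 + 1 - t ^ 2) + l * (e + t) = 1 + (e ^ 2 - t ^ 2 + l * (e + t)) := by ring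
    rw [e1, Valuation.map_add_eq_of_lt_left, map_one] at hG
    · exact absurd hG (not_le.2 h20)
    · rw [map_one]
      exact Valuation.map_add_lt _ (Valuation.map_sub_lt _ (a2.trans_lt h20) (b2.trans_lt h20)) k2
  · have hu : V (e + t) = 1 := by
      rw [Valuation.map_add_eq_of_lt_right, v_one_lt b1]
      rw [v_one_lt b1]
      exact a1
    have e1 : (e ^ 2 + 1 - t ^ 2) + l * (e + t) = l * (e + t) + (e ^ 2 - (t ^ 2 - 1)) := by ring
    have hv : V (l * (e + t)) = exp (-1 : ℤ) := by rw [map_mul, h.val, hu, mul_one]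
    rw [e1, Valuation.map_add_eq_of_lt_left, hv] at hG
    · exact absurd hG (not_le.2 h21)
    · rw [hv]
      exact Valuation.map_sub_lt _ (a2.trans_lt h21) (b2.trans_lt h21)
  · have hu : V (e + t) = 1 := by
      rw [Valuation.map_add_eq_of_lt_left, v_one_lt a1]
      rw [v_one_lt a1]
      exact b1
    have e1 : (e ^ 2 + 1 - t ^ 2) + l * (e + t) = l * (e + t) + ((e ^ 2 - 1) + (2 - t ^ 2)) := by
      ring
    have hv : V (l * (e + t)) = exp (-1 : ℤ) := by rw [map_mul, h.val, hu, mul_one]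
    rw [e1, Valuation.map_add_eq_of_lt_left, hv] at hG
    · exact absurd hG (not_le.2 h21)
    · rw [hv]
      exact Valuation.map_add_lt _ (a2.trans_lt h21)
        (Valuation.map_sub_lt _ (by rw [h.two]; exact h21) (b2.trans_lt h21))
  · have e1 : (e ^ 2 + 1 - t ^ 2) + l * (e + t) =
        1 + ((e ^ 2 - 1) - (t ^ 2 - 1) + l * (e + t)) := by ring
    rw [e1, Valuation.map_add_eq_of_lt_left, map_one] at hG
    · exact absurd hG (not_le.2 h20)
    · rw [map_one]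
      exact Valuation.map_add_lt _ (Valuation.map_sub_lt _ (a2.trans_lt h20) (b2.trans_lt h20)) k2

/-- the last step, second case -/
theorem QL.case2 (h : QL V l) {e t : L} (he : V e ≤ 1) (ht : V t ≤ 1)
    (hG : V ((e ^ 2 + t ^ 2) - l * (t - 1 - e)) ≤ exp (-2 : ℤ)) : False := by
  have h21 : exp (-2 : ℤ) < exp (-1 : ℤ) := exp_lt_exp.2 (by norm_num)
  have h20 : exp (-2 : ℤ) < (1 : ℤᵐ⁰) := Tam2_lt (by norm_num)
  have k1 : V (t - 1 - e) ≤ 1 :=
    Valuation.map_sub_le _ (Valuation.map_sub_le _ ht (map_one V).le) he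
  have k2 : V (l * (t - 1 - e)) < 1 := by
    rw [map_mul, h.val]
    exact mul_lt_one_of_lt_of_le exp_neg_lt k1
  rcases h.sq_mod he with ⟨a1, a2⟩ | ⟨a1, a2⟩ <;> rcases h.sq_mod ht with ⟨b1, b2⟩ | ⟨b1, b2⟩
  · have hu : V (t - 1 - e) = 1 := by
      have e0 : t - 1 - e = -(1 + (e - t)) := by ring
      rw [e0, Valuation.map_neg, Valuation.map_add_eq_of_lt_left, map_one]
      rw [map_one]
      exact Valuation.map_sub_lt _ a1 b1
    have e1 : (e ^ 2 + t ^ 2) - l * (t - 1 - e) = -(l * (t - 1 - e)) + (e ^ 2 + t ^ 2) := by ring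
    have hv : V (-(l * (t - 1 - e))) = exp (-1 : ℤ) := by
      rw [Valuation.map_neg, map_mul, h.val, hu, mul_one]
    rw [e1, Valuation.map_add_eq_of_lt_left, hv] at hG
    · exact absurd hG (not_le.2 h21)
    · rw [hv]
      exact Valuation.map_add_lt _ (a2.trans_lt h21) (b2.trans_lt h21)
  · have e1 : (e ^ 2 + t ^ 2) - l * (t - 1 - e) =
        1 + (e ^ 2 + (t ^ 2 - 1) - l * (t - 1 - e)) := by ring
    rw [e1, Valuation.map_add_eq_of_lt_left, map_one] at hG
    · exact absurd hG (not_le.2 h20)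
    · rw [map_one]
      exact Valuation.map_sub_lt _ (Valuation.map_add_lt _ (a2.trans_lt h20) (b2.trans_lt h20)) k2
  · have e1 : (e ^ 2 + t ^ 2) - l * (t - 1 - e) =
        1 + ((e ^ 2 - 1) + t ^ 2 - l * (t - 1 - e)) := by ring
    rw [e1, Valuation.map_add_eq_of_lt_left, map_one] at hG
    · exact absurd hG (not_le.2 h20)
    · rw [map_one]
      exact Valuation.map_sub_lt _ (Valuation.map_add_lt _ (a2.trans_lt h20) (b2.trans_lt h20)) k2
  · have hu : V (t - 1 - e) = 1 := by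
      have e0 : t - 1 - e = -(e - (t - 1)) := by ring
      rw [e0, Valuation.map_neg, Valuation.map_sub_eq_of_lt_left, v_one_lt a1]
      rw [v_one_lt a1]
      exact b1
    have e1 : (e ^ 2 + t ^ 2) - l * (t - 1 - e) =
        -(l * (t - 1 - e)) + ((e ^ 2 - 1) + (t ^ 2 - 1) + 2) := by ring
    have hv : V (-(l * (t - 1 - e))) = exp (-1 : ℤ) := by
      rw [Valuation.map_neg, map_mul, h.val, hu, mul_one]
    rw [e1, Valuation.map_add_eq_of_lt_left, hv] at hG
    · exact absurd hG (not_le.2 h21)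
    · rw [hv]
      exact Valuation.map_add_lt _ (Valuation.map_add_lt _ (a2.trans_lt h21) (b2.trans_lt h21))
        (by rw [h.two]; exact h21)

/-- The condition on the unit `d`: `1` modulo `lam ^ 2`, or `1 + lam`, or `-1 + lam` modulo `4`. -/
def CD (V : Valuation L ℤᵐ⁰) (l d : L) : Prop :=
  V (d - 1) ≤ exp (-2 : ℤ) ∨ V (d - (1 + l)) ≤ exp (-4 : ℤ) ∨ V (d - (-1 + l)) ≤ exp (-4 : ℤ)

/-- The values of the cubic at the units are not squares modulo `lam ^ 6`. -/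
theorem QL.key (h : QL V l) (hd : V d = 1) (hc : CD V l d) {r t : L} (hr : V r = 1)
    (he : V (r ^ 3 + l ^ 3 * d * r ^ 2 + -d ^ 2 * r - t ^ 2) ≤ exp (-6 : ℤ)) : False := by
  have hl0 := h.l0
  have hd' := v_unit hd
  have hd0 : d ≠ 0 := v_ne hd'
  obtain ⟨ρ, hρ⟩ : ∃ ρ : L, r = d * ρ := ⟨r / d, by field_simp⟩
  subst hρ
  have vρ : V ρ = 1 := by
    rw [map_mul, hd, one_mul] at hr
    exact hr
  obtain ⟨f, hf, vf⟩ := h.resid vρ
  have e0 : (d * ρ) ^ 3 + l ^ 3 * d * (d * ρ) ^ 2 + -d ^ 2 * (d * ρ) =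
      l ^ 2 * (d ^ 3 * ρ * (f ^ 2 - l * f + l + l ^ 2 * f)) := by
    rw [hf]
    linear_combination (d ^ 3 * (1 + l * f) * l * f) * h.sq2
  rw [e0] at he
  rcases h.res f vf with h1 | h1
  · -- the order is odd
    have hN : V (f ^ 2 - l * f + l + l ^ 2 * f) = exp (-1 : ℤ) := by
      have f1 := lt_one_exp h1
      have e1 : f ^ 2 - l * f + l + l ^ 2 * f = l + (f * (f - l + l ^ 2)) := by ring
      rw [e1, Valuation.map_add_eq_of_lt_left, h.val]
      rw [h.val]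
      have g1 : V (f - l + l ^ 2) ≤ exp (-1 : ℤ) := by
        refine Valuation.map_add_le _ (Valuation.map_sub_le _ f1 h.val.le) ?_
        rw [v_pow h.val]
        exact exp_le_exp.2 (by norm_num)
      exact (v_mul_le f1 g1).trans_lt (exp_lt_exp.2 (by norm_num))
    have hM : V (l ^ 2 * (d ^ 3 * ρ * (f ^ 2 - l * f + l + l ^ 2 * f))) = exp (-3 : ℤ) := by
      rw [v_mul (v_pow h.val 2) (v_mul (v_mul (v_pow hd' 3) (v_unit vρ)) hN)]
      congr 1
    have ht : V (t ^ 2) = exp (-3 : ℤ) := by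
      have e1 : t ^ 2 = l ^ 2 * (d ^ 3 * ρ * (f ^ 2 - l * f + l + l ^ 2 * f)) -
          (l ^ 2 * (d ^ 3 * ρ * (f ^ 2 - l * f + l + l ^ 2 * f)) - t ^ 2) := by ring
      rw [e1, Valuation.map_sub_eq_of_lt_left, hM]
      rw [hM]
      exact he.trans_lt (exp_lt_exp.2 (by norm_num))
    exact odd_sq ht rfl (by norm_num)
  · obtain ⟨e, he1, ve⟩ := h.div h1
    have hf1 : f = 1 + l * e := by linear_combination he1
    have eN : f ^ 2 - l * f + l + l ^ 2 * f = 1 + l ^ 2 * (e ^ 2 - e + 1) := by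
      rw [hf1]
      linear_combination (l * e) * h.sq2
    rw [eN] at he
    obtain ⟨t1, ht1⟩ : ∃ t1 : L, t = l * t1 := ⟨t / l, by field_simp⟩
    subst ht1
    have hm : e ∈ V.integer := TamG_int.2 ve
    have hl := h.mem
    have vN1 : V (e ^ 2 - e + 1) ≤ 1 :=
      TamG_int.1 (add_mem (sub_mem (pow_mem hm 2) hm) (one_mem _))
    have vl2 : V (l ^ 2) = exp (-2 : ℤ) := by rw [v_pow h.val]; rfl
    have vN0 : V (1 + l ^ 2 * (e ^ 2 - e + 1) - 1) ≤ exp (-2 : ℤ) := by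
      rw [add_sub_cancel_left, map_mul, vl2]
      exact mul_le_of_le_one_right' vN1
    have vN : V (1 + l ^ 2 * (e ^ 2 - e + 1)) = 1 := by
      refine v_one_lt (vN0.trans_lt (Tam2_lt (by norm_num)))
    have hM4 : V (d ^ 3 * ρ * (1 + l ^ 2 * (e ^ 2 - e + 1)) - t1 ^ 2) ≤ exp (-4 : ℤ) := by
      have e1 : l ^ 2 * (d ^ 3 * ρ * (1 + l ^ 2 * (e ^ 2 - e + 1))) - (l * t1) ^ 2 =
          l ^ 2 * (d ^ 3 * ρ * (1 + l ^ 2 * (e ^ 2 - e + 1)) - t1 ^ 2) := by ring
      rw [e1, map_mul, vl2] at he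
      have e2 : exp (-6 : ℤ) = exp (-2 : ℤ) * exp (-4 : ℤ) := by
        rw [← exp_add]
        rfl
      rw [e2] at he
      exact (mul_le_mul_iff_of_pos_left exp_pos).1 he
    have hM1 : V (d ^ 3 * ρ * (1 + l ^ 2 * (e ^ 2 - e + 1))) = 1 := by
      rw [map_mul, map_mul, map_pow, hd, vρ, vN, one_pow, one_mul, one_mul]
    have vt : V t1 = 1 := by
      refine v_unit_sq ?_
      have e1 : t1 ^ 2 = d ^ 3 * ρ * (1 + l ^ 2 * (e ^ 2 - e + 1)) -
          (d ^ 3 * ρ * (1 + l ^ 2 * (e ^ 2 - e + 1)) - t1 ^ 2) := by ring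
      rw [e1, Valuation.map_sub_eq_of_lt_left, hM1]
      rw [hM1]
      exact hM4.trans_lt (Tam2_lt (by norm_num))
    have hρ2 : ρ = 1 + l + l ^ 2 * e := by rw [hf, hf1]; ring
    rcases hc with hA | hB
    · -- modulo `lam ^ 2`
      have s1 := h.unit_sq vt
      have s2 : V (d ^ 3 - 1) ≤ exp (-2 : ℤ) := by
        have g1 := h.unit_sq hd
        have g2 := cong_mul (V := V) (x := d ^ 2) (x' := 1) (y := d) (y' := 1) (n := -2)
          (map_one V).le hd.le g1 hA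
        have e1 : d ^ 2 * d - 1 * 1 = d ^ 3 - 1 := by ring
        rwa [e1] at g2
      have s3 : V (ρ - (1 + l)) ≤ exp (-2 : ℤ) := by
        rw [hρ2]
        have e1 : 1 + l + l ^ 2 * e - (1 + l) = l ^ 2 * e := by ring
        rw [e1, map_mul, vl2]
        exact mul_le_of_le_one_right' ve
      have s4 := cong_mul (V := V) (n := -2) (map_one V).le vρ.le s2 s3
      have v1l : V (1 * (1 + l)) ≤ 1 := by
        rw [one_mul]
        exact TamG_int.1 (add_mem (one_mem _) hl)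
      have s5 := cong_mul (V := V) (n := -2) v1l vN.le s4 vN0
      have e1 : l = -(d ^ 3 * ρ * (1 + l ^ 2 * (e ^ 2 - e + 1)) - 1 * (1 + l) * 1) +
          ((d ^ 3 * ρ * (1 + l ^ 2 * (e ^ 2 - e + 1)) - t1 ^ 2) + (t1 ^ 2 - 1)) := by ring
      have s6 : V l ≤ exp (-2 : ℤ) := by
        rw [e1]
        refine Valuation.map_add_le _ ?_ (Valuation.map_add_le _ ?_ s1)
        · rw [Valuation.map_neg]
          exact s5
        · exact hM4.trans (exp_le_exp.2 (by norm_num))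
      rw [h.val, exp_le_exp] at s6
      norm_num at s6
    · -- modulo `lam ^ 4`
      obtain ⟨g, hg, vg⟩ := h.resid vt
      have gm : g ∈ V.integer := TamG_int.2 vg
      have hv4 := h.four
      have hint : ∀ z : L, z ∈ V.integer → V (4 * z) ≤ exp (-4 : ℤ) := by
        intro z hz
        rw [map_mul, hv4]
        exact mul_le_of_le_one_right' (TamG_int.1 hz)
      have htwo : ∀ z : L, V (2 * z) ≤ exp (-4 : ℤ) → V z ≤ exp (-2 : ℤ) := by
        intro z hz
        rw [map_mul, h.two] at hz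
        have e2 : exp (-4 : ℤ) = exp (-2 : ℤ) * exp (-2 : ℤ) := by
          rw [← exp_add]
          rfl
        rw [e2] at hz
        exact (mul_le_mul_iff_of_pos_left exp_pos).1 hz
      -- the residue of the cube
      have hcube : ∀ η : L, V (η + l) ≤ 1 → V (d - (η + l)) ≤ exp (-4 : ℤ) →
          V (d ^ 3 * ρ * (1 + l ^ 2 * (e ^ 2 - e + 1)) -
            (η + l) * (η + l) * (η + l) * ρ * (1 + l ^ 2 * (e ^ 2 - e + 1))) ≤ exp (-4 : ℤ) := by
        intro η hη1 hη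
        have g1 := cong_mul (V := V) (n := -4) hη1 hd.le hη hη
        have hη2 : V ((η + l) * (η + l)) ≤ 1 := by
          rw [map_mul]
          exact mul_le_one' hη1 hη1
        have g2 := cong_mul (V := V) (n := -4) hη2 hd.le g1 hη
        have e1 : d ^ 3 * ρ * (1 + l ^ 2 * (e ^ 2 - e + 1)) -
            (η + l) * (η + l) * (η + l) * ρ * (1 + l ^ 2 * (e ^ 2 - e + 1)) =
            (d * d * d - (η + l) * (η + l) * (η + l)) * (ρ * (1 + l ^ 2 * (e ^ 2 - e + 1))) := by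
          ring
        rw [e1, map_mul, map_mul (V) ρ, vρ, vN, one_mul, mul_one]
        exact g2
      rcases hB with hB | hB
      · have v1 : V (1 + l) ≤ 1 := TamG_int.1 (add_mem (one_mem _) hl)
        have g1 := hcube 1 v1 hB
        refine h.case1 ve vg (htwo _ ?_)
        have e1 : 2 * ((e ^ 2 + 1 - g ^ 2) + l * (e + g)) =
            (d ^ 3 * ρ * (1 + l ^ 2 * (e ^ 2 - e + 1)) -
              (1 + l) * (1 + l) * (1 + l) * ρ * (1 + l ^ 2 * (e ^ 2 - e + 1))) -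
            (d ^ 3 * ρ * (1 + l ^ 2 * (e ^ 2 - e + 1)) - t1 ^ 2) +
            4 * (2 + l - (6 + l) * e + (9 + l) * e ^ 2 + (l - 5) * e ^ 3) := by
          have e2 : (1 + l) * (1 + l) * (1 + l) * ρ * (1 + l ^ 2 * (e ^ 2 - e + 1)) =
              7 + 4 * l + e * (-24 - 6 * l) + e ^ 2 * (34 + 4 * l) + e ^ 3 * (-20 + 4 * l) := by
            have c2 : (1 + l ^ 2 * (e ^ 2 - e + 1)) = -1 + 2 * e - 2 * e ^ 2 := by
              rw [h.sq2]
              ring
            have c3 : (1 + l) * (1 + l) * (1 + l) = -5 + l := by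
              linear_combination (l + 3) * h.sq2
            have c4 : ρ = 1 + l - 2 * e := by
              rw [hρ2, h.sq2]
              ring
            rw [c2, c3, c4]
            linear_combination (-1 + 2 * e - 2 * e ^ 2) * h.sq2
          have e3 : t1 ^ 2 = 1 - 2 * g ^ 2 + 2 * l * g := by
            rw [hg]
            linear_combination (g ^ 2) * h.sq2
          rw [e2, e3]
          ring
        rw [e1]
        refine Valuation.map_add_le _ (Valuation.map_sub_le _ g1 hM4) (hint _ ?_)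
        exact add_mem (add_mem (sub_mem (add_mem (ofNat_mem _ 2) hl)
          (mul_mem (add_mem (ofNat_mem _ 6) hl) hm)) (mul_mem (add_mem (ofNat_mem _ 9) hl)
          (pow_mem hm 2))) (mul_mem (sub_mem hl (ofNat_mem _ 5)) (pow_mem hm 3))
      · have v1 : V (-1 + l) ≤ 1 := TamG_int.1 (add_mem (neg_mem (one_mem _)) hl)
        have g1 := hcube (-1) v1 hB
        refine h.case2 ve vg (htwo _ ?_)
        have e1 : 2 * ((e ^ 2 + g ^ 2) - l * (g - 1 - e)) =
            -((d ^ 3 * ρ * (1 + l ^ 2 * (e ^ 2 - e + 1)) -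
              (-1 + l) * (-1 + l) * (-1 + l) * ρ * (1 + l ^ 2 * (e ^ 2 - e + 1))) -
            (d ^ 3 * ρ * (1 + l ^ 2 * (e ^ 2 - e + 1)) - t1 ^ 2) +
            4 * (-1 - 2 * l + (4 + 3 * l) * e - (7 + 4 * l) * e ^ 2 + (5 + l) * e ^ 3)) := by
          have e2 : (-1 + l) * (-1 + l) * (-1 + l) * ρ * (1 + l ^ 2 * (e ^ 2 - e + 1)) =
              -3 - 6 * l + e * (16 + 14 * l) + e ^ 2 * (-26 - 16 * l) + e ^ 3 * (20 + 4 * l) := by
            have c2 : (1 + l ^ 2 * (e ^ 2 - e + 1)) = -1 + 2 * e - 2 * e ^ 2 := by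
              rw [h.sq2]
              ring
            have c3 : (-1 + l) * (-1 + l) * (-1 + l) = 5 + l := by
              linear_combination (l - 3) * h.sq2
            have c4 : ρ = 1 + l - 2 * e := by
              rw [hρ2, h.sq2]
              ring
            rw [c2, c3, c4]
            linear_combination (-1 + 2 * e - 2 * e ^ 2) * h.sq2
          have e3 : t1 ^ 2 = 1 - 2 * g ^ 2 + 2 * l * g := by
            rw [hg]
            linear_combination (g ^ 2) * h.sq2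
          rw [e2, e3]
          ring
        rw [e1, Valuation.map_neg]
        refine Valuation.map_add_le _ (Valuation.map_sub_le _ g1 hM4) (hint _ ?_)
        exact add_mem (sub_mem (add_mem (sub_mem (neg_mem (one_mem _)) (mul_mem (ofNat_mem _ 2) hl))
          (mul_mem (add_mem (ofNat_mem _ 4) (mul_mem (ofNat_mem _ 3) hl)) hm))
          (mul_mem (add_mem (ofNat_mem _ 7) (mul_mem (ofNat_mem _ 4) hl)) (pow_mem hm 2)))
          (mul_mem (add_mem (ofNat_mem _ 5) hl) (pow_mem hm 3))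

theorem QL.l3 (h : QL V l) (hd : V d = 1) : V (l ^ 3 * d) = exp (-3 : ℤ) := by
  rw [v_mul (v_pow h.val 3) (v_unit hd)]
  norm_num

theorem w0_delta (h : QL V l) : (wb (l ^ 3 * d) (-d ^ 2)).Δ = -64 * d ^ 6 := by
  rw [wb_delta]
  linear_combination (16 * d ^ 6 * (l ^ 4 - 2 * l ^ 2 + 4)) * h.sq2

/-- the equation `y² = x³ + lam³ d x² - d² x` is minimal -/
theorem QL.noDown0 (h : QL V l) (hd : V d = 1) (hc : CD V l d) :
    NoDown V (wb (l ^ 3 * d) (-d ^ 2)) := by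
  intro C hC hu
  have hu0 : (C.u : L) ≠ 0 := C.u.ne_zero
  have hui : ((C.u⁻¹ : Lˣ) : L) = (C.u : L)⁻¹ := by simp
  have hu1 : V (C.u : L) ≤ exp (-1 : ℤ) := lt_one_exp hu
  obtain ⟨-, -, -, c8⟩ := Pool.Agent.Lib.MP_1a91b9_ntV.C.Itg.b hC
  have hd' := v_unit hd
  have hpow : ∀ (k : ℕ) (z : L), V z ≤ 1 → V ((C.u : L) ^ k * z) ≤ exp (-(k : ℤ)) := by
    intro k z hz
    rw [map_mul, map_pow]
    calc V (C.u : L) ^ k * V z ≤ exp (-1 : ℤ) ^ k * 1 :=
          mul_le_mul' (pow_le_pow_left₀ zero_le hu1 k) hz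
      _ = exp (-(k : ℤ)) := by
        rw [mul_one, ← exp_nsmul, nsmul_eq_mul, mul_neg, mul_one]
  have h8 := hpow 8 _ c8
  have h6 := hpow 6 _ hC.a6
  have e8 : (C.u : L) ^ 8 * (C • wb (l ^ 3 * d) (-d ^ 2)).b₈ =
      -(d ^ 4) + (2 * (-3 * C.r ^ 2 * d ^ 2) + (4 * (l ^ 3 * C.r ^ 3 * d) + 3 * C.r ^ 4)) := by
    rw [variableChange_b₈, hui]
    simp only [wb, WeierstrassCurve.b₂, WeierstrassCurve.b₄, WeierstrassCurve.b₆, WeierstrassCurve.b₈]
    field_simp
    ring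
  have e6 : (C.u : L) ^ 6 * (C • wb (l ^ 3 * d) (-d ^ 2)).a₆ =
      C.r ^ 3 + l ^ 3 * d * C.r ^ 2 + -d ^ 2 * C.r - C.t ^ 2 := by
    rw [variableChange_a₆, hui]
    simp only [wb]
    field_simp
    ring
  rw [e8] at h8
  rw [e6] at h6
  have v4 : V (d ^ 4) = exp (0 : ℤ) := by
    rw [v_pow hd' 4]
    norm_num
  have v3 := v_unit h.three
  have hr1 : V C.r = 1 := by
    by_cases hr0 : C.r = 0
    · exfalso
      rw [hr0] at h8
      have e : -(d ^ 4) + (2 * (-3 * 0 ^ 2 * d ^ 2) + (4 * (l ^ 3 * 0 ^ 3 * d) + 3 * 0 ^ 4)) =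
          -(d ^ 4) := by
        ring
      rw [e, Valuation.map_neg, v4, exp_le_exp] at h8
      norm_num at h8
    obtain ⟨n, hn⟩ := val_exp (V := V) hr0
    have p1 : V (2 * (-3 * C.r ^ 2 * d ^ 2)) = exp (-2 + 2 * n) := by
      have e : 2 * (-3 * C.r ^ 2 * d ^ 2) = -(2 * (3 * C.r ^ 2 * d ^ 2)) := by ring
      rw [e, Valuation.map_neg, v_mul h.two (v_mul (v_mul v3 (v_pow hn 2)) (v_pow hd' 2))]
      congr 1
      push_cast
      ring
    have p2 : V (4 * (l ^ 3 * C.r ^ 3 * d)) = exp (-7 + 3 * n) := by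
      rw [v_mul h.four (v_mul (v_mul (v_pow h.val 3) (v_pow hn 3)) hd')]
      congr 1
      push_cast
      ring
    have p3 : V (3 * C.r ^ 4) = exp (4 * n) := by
      rw [v_mul v3 (v_pow hn 4)]
      congr 1
      push_cast
      ring
    have hn0 : n = 0 := by
      by_contra hne
      rcases lt_or_gt_of_ne hne with h1 | h1
      · rw [Valuation.map_add_eq_of_lt_left, Valuation.map_neg, v4, exp_le_exp] at h8
        · norm_num at h8
        · rw [Valuation.map_neg, v4]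
          refine Valuation.map_add_lt _ ?_ (Valuation.map_add_lt _ ?_ ?_)
          · rw [p1, exp_lt_exp]; omega
          · rw [p2, exp_lt_exp]; omega
          · rw [p3, exp_lt_exp]; omega
      · have e : -(d ^ 4) + (2 * (-3 * C.r ^ 2 * d ^ 2) +
            (4 * (l ^ 3 * C.r ^ 3 * d) + 3 * C.r ^ 4)) =
            3 * C.r ^ 4 + (-(d ^ 4) + (2 * (-3 * C.r ^ 2 * d ^ 2) +
              4 * (l ^ 3 * C.r ^ 3 * d))) := by ring
        rw [e, Valuation.map_add_eq_of_lt_left, p3, exp_le_exp] at h8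
        · push_cast at h8
          omega
        · rw [p3]
          refine Valuation.map_add_lt _ ?_ (Valuation.map_add_lt _ ?_ ?_)
          · rw [Valuation.map_neg, v4, exp_lt_exp]; omega
          · rw [p1, exp_lt_exp]; omega
          · rw [p2, exp_lt_exp]; omega
    rw [hn, hn0, exp_zero]
  exact h.key hd hc hr1 h6

/-- the index is one -/
theorem QL.index0 (h : QL V l) (hd : V d = 1) (hc : CD V l d) :
    (nsG V (wb (l ^ 3 * d) (-d ^ 2))).index = 1 := by
  refine index_one ?_ ?_ ?_ ?_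
  · rw [h.two]
    exact Tam2_lt (by norm_num)
  · rw [h.l3 hd]
    exact Tam2_le (by norm_num)
  · rw [Valuation.map_neg, map_pow, hd, one_pow]
  · intro x y he hx
    refine h.key (t := y) hd hc hx ?_
    rw [← he, sub_self, map_zero]
    exact zero_le

/-- the change `u = lam` -/
theorem change0 (h : QL V l) :
    (⟨Units.mk0 l h.l0, 0, 0, 0⟩ : VariableChange L) • wb (4 * (l * d)) (2 * (l * d) ^ 2) =
      wb (l ^ 3 * d) (-d ^ 2) := by
  have hl0 := h.l0
  have hui : (((Units.mk0 l h.l0)⁻¹ : Lˣ) : L) = l⁻¹ := by simp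
  ext
  · rw [variableChange_a₁, hui]
    simp only [wb]
    ring
  · rw [variableChange_a₂, hui]
    simp only [wb]
    field_simp
    linear_combination (-l * d * (l ^ 2 - 2)) * h.sq2
  · rw [variableChange_a₃, hui]
    simp only [wb]
    ring
  · rw [variableChange_a₄, hui]
    simp only [wb]
    field_simp
    linear_combination (l ^ 2 * d ^ 2) * h.sq2
  · rw [variableChange_a₆, hui]
    simp only [wb]
    ring

/-- the good model -/
theorem QL.good (h : QL V l) (hd : V d = 1) (hc : V (d + (1 + l)) ≤ exp (-4 : ℤ) ∨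
    V (d + (-1 + l)) ≤ exp (-4 : ℤ)) :
    ∃ C : VariableChange L, Itg V (C • wb (l ^ 3 * d) (-d ^ 2)) ∧
      V (C • wb (l ^ 3 * d) (-d ^ 2)).Δ = 1 ∧ V (C.u : L) = exp (-1 : ℤ) := by
  have hl0 := h.l0
  have h20 := h.two0
  have hl := h.mem
  have h4 := h.four
  have h40 : (4 : L) ≠ 0 := by
    have e : (4 : L) = 2 * 2 := by norm_num
    rw [e]
    exact mul_ne_zero h20 h20
  -- the residue
  obtain ⟨η, c, t, hdc, hcm, htm, hηt⟩ : ∃ η c t : L, d = -(η + l) + 4 * c ∧ c ∈ V.integer ∧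
      t ∈ V.integer ∧ ((η = 1 ∧ t = 1) ∨ (η = -1 ∧ t = 1 + l)) := by
    rcases hc with hc | hc
    · refine ⟨1, (d + (1 + l)) / 4, 1, ?_, ?_, one_mem _, Or.inl ⟨rfl, rfl⟩⟩
      · field_simp
        ring
      · rw [TamG_int, map_div₀, h4, div_le_one₀ exp_pos]
        exact hc
    · refine ⟨-1, (d + (-1 + l)) / 4, 1 + l, ?_, ?_, add_mem (one_mem _) hl, Or.inr ⟨rfl, rfl⟩⟩
      · field_simp
        ring
      · rw [TamG_int, map_div₀, h4, div_le_one₀ exp_pos]
        exact hc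
  have hui : (((Units.mk0 l h.l0)⁻¹ : Lˣ) : L) = l⁻¹ := by simp
  have dm : d ∈ V.integer := TamG_int.2 hd.le
  have h2l : (2 : L) = -l ^ 2 := by rw [h.sq2]; ring
  refine ⟨⟨Units.mk0 l h.l0, d * (1 + l), 1, l * t⟩, ⟨?_, ?_, ?_, ?_, ?_⟩, ?_, h.val⟩
  · refine TamG_int.1 ?_
    have e : ((⟨Units.mk0 l h.l0, d * (1 + l), 1, l * t⟩ : VariableChange L) •
        wb (l ^ 3 * d) (-d ^ 2)).a₁ = -l := by
      rw [variableChange_a₁, hui]
      simp only [wb]
      field_simp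
      linear_combination h.sq2
    rw [e]
    exact neg_mem hl
  · refine TamG_int.1 ?_
    have e : ((⟨Units.mk0 l h.l0, d * (1 + l), 1, l * t⟩ : VariableChange L) •
        wb (l ^ 3 * d) (-d ^ 2)).a₂ =
        (l ^ 3 * d + 3 * (d * (1 + l)) - 1) / l ^ 2 := by
      rw [variableChange_a₂, hui]
      simp only [wb]
      field_simp
      ring
    rw [e]
    rcases hηt with ⟨rfl, rfl⟩ | ⟨rfl, rfl⟩
    · have e2 : (l ^ 3 * d + 3 * (d * (1 + l)) - 1) / l ^ 2 = 1 + 2 * l - 2 * c * (3 + l) := by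
        rw [div_eq_iff (pow_ne_zero _ hl0), hdc]
        linear_combination (-2 + 6 * c + 6 * c * l - 3 * l - 1 * l^2) * h.sq2
      rw [e2]
      exact sub_mem (add_mem (one_mem _) (mul_mem (ofNat_mem _ 2) hl))
        (mul_mem (mul_mem (ofNat_mem _ 2) hcm) (add_mem (ofNat_mem _ 3) hl))
    · have e2 : (l ^ 3 * d + 3 * (d * (1 + l)) - 1) / l ^ 2 = -2 + l - 2 * c * (3 + l) := by
        rw [div_eq_iff (pow_ne_zero _ hl0), hdc]
        linear_combination (1 + 6 * c + 6 * c * l - 1 * l^2) * h.sq2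
      rw [e2]
      exact sub_mem (add_mem (neg_mem (ofNat_mem _ 2)) hl)
        (mul_mem (mul_mem (ofNat_mem _ 2) hcm) (add_mem (ofNat_mem _ 3) hl))
  · refine TamG_int.1 ?_
    have e : ((⟨Units.mk0 l h.l0, d * (1 + l), 1, l * t⟩ : VariableChange L) •
        wb (l ^ 3 * d) (-d ^ 2)).a₃ = -t := by
      rw [variableChange_a₃, hui]
      simp only [wb]
      field_simp
      linear_combination (l * t) * h.sq2
    rw [e]
    exact neg_mem htm
  · refine TamG_int.1 ?_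
    have e : ((⟨Units.mk0 l h.l0, d * (1 + l), 1, l * t⟩ : VariableChange L) •
        wb (l ^ 3 * d) (-d ^ 2)).a₄ =
        (-d ^ 2 + 2 * l ^ 3 * d * (d * (1 + l)) + 3 * (d * (1 + l)) ^ 2 - 2 * l * t) / l ^ 4 := by
      rw [variableChange_a₄, hui]
      simp only [wb]
      field_simp
      ring
    rw [e]
    rcases hηt with ⟨rfl, rfl⟩ | ⟨rfl, rfl⟩
    · have e2 : (-d ^ 2 + 2 * l ^ 3 * d * (d * (1 + l)) + 3 * (d * (1 + l)) ^ 2 - 2 * l * 1) /
          l ^ 4 = -3 + l + (-2 * c * (1 + l) + 4 * c ^ 2) * (4 + 2 * l) := by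
        rw [div_eq_iff (pow_ne_zero _ hl0), hdc]
        linear_combination (1 - 8 * c - 32 * c * l - 32 * c * l^2 - 4 * c * l^3 + 4 * c * l^4 + 16 * c^2 + 48 * c^2 * l + 16 * c^2 * l^2 - 8 * c^2 * l^3 + 4 * l + 8 * l^2 + 5 * l^3 + 2 * l^4) * h.sq2
      rw [e2]
      exact add_mem (add_mem (neg_mem (ofNat_mem _ 3)) hl) (mul_mem (add_mem
        (mul_mem (mul_mem (neg_mem (ofNat_mem _ 2)) hcm) (add_mem (one_mem _) hl))
        (mul_mem (ofNat_mem _ 4) (pow_mem hcm 2))) (add_mem (ofNat_mem _ 4)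
          (mul_mem (ofNat_mem _ 2) hl)))
    · have e2 : (-d ^ 2 + 2 * l ^ 3 * d * (d * (1 + l)) + 3 * (d * (1 + l)) ^ 2 -
          2 * l * (1 + l)) / l ^ 4 =
          2 - 3 * l + (2 * c * (1 - l) + 4 * c ^ 2) * (4 + 2 * l) := by
        rw [div_eq_iff (pow_ne_zero _ hl0), hdc]
        linear_combination (1 + 8 * c + 16 * c * l - 16 * c * l^2 - 12 * c * l^3 + 4 * c * l^4 + 16 * c^2 + 48 * c^2 * l + 16 * c^2 * l^2 - 8 * c^2 * l^3 - 5 * l^2 + l^3 + 2 * l^4) * h.sq2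
      rw [e2]
      exact add_mem (sub_mem (ofNat_mem _ 2) (mul_mem (ofNat_mem _ 3) hl)) (mul_mem (add_mem
        (mul_mem (mul_mem (ofNat_mem _ 2) hcm) (sub_mem (one_mem _) hl))
        (mul_mem (ofNat_mem _ 4) (pow_mem hcm 2))) (add_mem (ofNat_mem _ 4)
          (mul_mem (ofNat_mem _ 2) hl)))
  · refine TamG_int.1 ?_
    have e : ((⟨Units.mk0 l h.l0, d * (1 + l), 1, l * t⟩ : VariableChange L) •
        wb (l ^ 3 * d) (-d ^ 2)).a₆ =
        ((d * (1 + l)) ^ 3 + l ^ 3 * d * (d * (1 + l)) ^ 2 - d ^ 2 * (d * (1 + l)) -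
          l ^ 2 * t ^ 2) / l ^ 6 := by
      rw [variableChange_a₆, hui]
      simp only [wb]
      field_simp
      ring
    rw [e]
    rcases hηt with ⟨rfl, rfl⟩ | ⟨rfl, rfl⟩
    · have e2 : ((d * (1 + l)) ^ 3 + l ^ 3 * d * (d * (1 + l)) ^ 2 - d ^ 2 * (d * (1 + l)) -
          l ^ 2 * 1 ^ 2) / l ^ 6 =
          -(2 + l + (1 + l) * (3 * c * (-1 + 2 * l) - 12 * c ^ 2 * (1 + l) + 16 * c ^ 3)) := by
        rw [div_eq_iff (pow_ne_zero _ hl0), hdc]
        linear_combination (12 * c * l + 42 * c * l^2 + 54 * c * l^3 + 33 * c * l^4 + 15 * c * l^5 + 6 * c * l^6 - 48 * c^2 * l - 120 * c^2 * l^2 - 96 * c^2 * l^3 - 36 * c^2 * l^4 - 24 * c^2 * l^5 - 12 * c^2 * l^6 + 64 * c^3 * l + 96 * c^3 * l^2 + 32 * c^3 * l^3 + 16 * c^3 * l^4 + 16 * c^3 * l^5 - 1 * l - 5 * l^2 - 8 * l^3 - 7 * l^4 - 4 * l^5 - 1 * l^6) * h.sq2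
      rw [e2]
      exact neg_mem (add_mem (add_mem (ofNat_mem _ 2) hl) (mul_mem (add_mem (one_mem _) hl)
        (add_mem (sub_mem (mul_mem (mul_mem (ofNat_mem _ 3) hcm) (add_mem (neg_mem (one_mem _))
          (mul_mem (ofNat_mem _ 2) hl))) (mul_mem (mul_mem (ofNat_mem _ 12) (pow_mem hcm 2))
          (add_mem (one_mem _) hl))) (mul_mem (ofNat_mem _ 16) (pow_mem hcm 3)))))
    · have e2 : ((d * (1 + l)) ^ 3 + l ^ 3 * d * (d * (1 + l)) ^ 2 - d ^ 2 * (d * (1 + l)) -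
          l ^ 2 * (1 + l) ^ 2) / l ^ 6 =
          -(-1 - l + (1 + l) * (3 * (-1 - 2 * l) * c + 12 * (1 - l) * c ^ 2 + 16 * c ^ 3)) := by
        rw [div_eq_iff (pow_ne_zero _ hl0), hdc]
        linear_combination (12 * c * l - 6 * c * l^2 - 18 * c * l^3 + 9 * c * l^4 + 3 * c * l^5 - 6 * c * l^6 + 48 * c^2 * l + 24 * c^2 * l^2 - 48 * c^2 * l^3 - 12 * c^2 * l^4 - 12 * c^2 * l^6 + 64 * c^3 * l + 96 * c^3 * l^2 + 32 * c^3 * l^3 + 16 * c^3 * l^4 + 16 * c^3 * l^5 + l - 2 * l^2 - 2 * l^3 + 2 * l^4 - 1 * l^6) * h.sq2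
      rw [e2]
      exact neg_mem (add_mem (sub_mem (neg_mem (one_mem _)) hl) (mul_mem (add_mem (one_mem _) hl)
        (add_mem (add_mem (mul_mem (mul_mem (ofNat_mem _ 3) (sub_mem (neg_mem (one_mem _))
          (mul_mem (ofNat_mem _ 2) hl))) hcm) (mul_mem (mul_mem (ofNat_mem _ 12)
          (sub_mem (one_mem _) hl)) (pow_mem hcm 2))) (mul_mem (ofNat_mem _ 16) (pow_mem hcm 3)))))
  · have e : ((⟨Units.mk0 l h.l0, d * (1 + l), 1, l * t⟩ : VariableChange L) •
        wb (l ^ 3 * d) (-d ^ 2)).Δ = -d ^ 6 := by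
      rw [variableChange_Δ, w0_delta h, hui]
      have e2 : -64 * d ^ 6 = -d ^ 6 * l ^ 12 := by
        linear_combination (-32 * d^6 + 16 * d^6 * l^2 - 8 * d^6 * l^4 + 4 * d^6 * l^6 - 2 * d^6 * l^8 + d^6 * l^10) * h.sq2
      rw [e2]
      field_simp
    rw [e, Valuation.map_neg, map_pow, hd, one_pow]

end

end Pool.Agent.Lib.MP_1a91b9_ntW.T
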