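import Pool.Agent.Lib.MP_1a91b9_ntV.C.TamG

/-!
# Tamagawa numbers and the factor of the period: a minimal equation after a change of variables
-/

set_option autoImplicit false

namespace Pool.Agent.Lib.MP_1a91b9_ntW.T

open NumberField IsDedekindDomain WithZero WeierstrassCurve
open Pool.Agent.Lib.MP_1a91b9_ntT.S9 (tam nonsing minModel minChange minModel_isMinimal normFactor)
open Pool.Agent.Lib.MP_1a91b9_ntT.CT (min_int min_le ns_unit)
open Pool.Agent.Lib.MP_1a91b9_ntH.C (nsSet nsG tam_def)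
open Pool.Agent.Lib.MP_1a91b9_ntH.C.TamT (Itg index_smul Itg_bc)
open Pool.Agent.Lib.MP_1a91b9_ntV.C (NoDown unit_gen coef_gen)
open scoped Classical

variable {N : Type*} [Field N] [NumberField N] {v : HeightOneSpectrum (𝓞 N)}

/-- an equation with integral coefficients -/
theorem model_of_itg {M : WeierstrassCurve (v.adicCompletion N)}
    (h : Itg (Valued.v : Valuation (v.adicCompletion N) ℤᵐ⁰) M) :
    ∃ I : WeierstrassCurve (v.adicCompletionIntegers N), M = I.baseChange (v.adicCompletion N) :=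
  ⟨⟨⟨M.a₁, h.a1⟩, ⟨M.a₂, h.a2⟩, ⟨M.a₃, h.a3⟩, ⟨M.a₄, h.a4⟩, ⟨M.a₆, h.a6⟩⟩, rfl⟩

theorem minModel_change (W : WeierstrassCurve N) (C₀ : VariableChange (v.adicCompletion N)) :
    minModel W v = (minChange W v * C₀⁻¹) • (C₀ • W.baseChange (v.adicCompletion N)) := by
  rw [← mul_smul, inv_mul_cancel_right]
  rfl

theorem delta_ne_change (W : WeierstrassCurve N) (hΔ : W.Δ ≠ 0)
    (C₀ : VariableChange (v.adicCompletion N)) :
    (C₀ • W.baseChange (v.adicCompletion N)).Δ ≠ 0 := by
  rw [variableChange_Δ]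
  refine mul_ne_zero (pow_ne_zero _ (Units.ne_zero _)) ?_
  rw [WeierstrassCurve.baseChange, WeierstrassCurve.map_Δ]
  exact fun h => hΔ ((map_eq_zero_iff _ (algebraMap N (v.adicCompletion N)).injective).1 h)

theorem u_mul_inv {F : Type*} [Field F] (C D : VariableChange F) :
    (((C * D⁻¹).u : Fˣ) : F) = (C.u : F) * (D.u : F)⁻¹ := by
  simp [VariableChange.mul_def, VariableChange.inv_def]

/-- the scaling factor of the change to the minimal model -/
theorem v_minChange' (W : WeierstrassCurve N) (C₀ : VariableChange (v.adicCompletion N))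
    (hI : Itg (Valued.v : Valuation (v.adicCompletion N) ℤᵐ⁰)
      (C₀ • W.baseChange (v.adicCompletion N))) (hΔ : W.Δ ≠ 0)
    (hH : NoDown (Valued.v : Valuation (v.adicCompletion N) ℤᵐ⁰)
      (C₀ • W.baseChange (v.adicCompletion N))) :
    Valued.v ((minChange W v).u : v.adicCompletion N) =
      (Valued.v (C₀.u : v.adicCompletion N) : ℤᵐ⁰) := by
  have hm := minModel_isMinimal W v
  rw [minModel_change W C₀] at hm
  have h1 := unit_gen _ (model_of_itg hI) (delta_ne_change W hΔ C₀) hH _ hm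
  have hu0 : Valued.v (C₀.u : v.adicCompletion N) ≠ (0 : ℤᵐ⁰) :=
    (Valuation.ne_zero_iff _).2 C₀.u.ne_zero
  rw [u_mul_inv, map_mul, map_inv₀] at h1
  exact (mul_inv_eq_one₀ hu0).1 h1

/-- **Transport of the Tamagawa number** to a given minimal equation. -/
theorem tam_gen' (W : WeierstrassCurve N) (C₀ : VariableChange (v.adicCompletion N))
    (hI : Itg (Valued.v : Valuation (v.adicCompletion N) ℤᵐ⁰)
      (C₀ • W.baseChange (v.adicCompletion N))) (hΔ : W.Δ ≠ 0)
    (hH : NoDown (Valued.v : Valuation (v.adicCompletion N) ℤᵐ⁰)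
      (C₀ • W.baseChange (v.adicCompletion N))) :
    tam W v = (nsG (Valued.v : Valuation (v.adicCompletion N) ℤᵐ⁰)
      (C₀ • W.baseChange (v.adicCompletion N))).index := by
  rw [tam_def]
  have hm := minModel_isMinimal W v
  rw [minModel_change W C₀] at hm ⊢
  have hu := unit_gen _ (model_of_itg hI) (delta_ne_change W hΔ C₀) hH _ hm
  have hM := Itg_bc (min_int _ hm)
  obtain ⟨hr, hs, -⟩ := coef_gen hI hM hu
  exact index_smul hM hu hr hs

/-- the factor of the norm -/
theorem normFactor_pow (W : WeierstrassCurve N) (n : ℕ)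
    (h : Valued.v ((minChange W v).u : v.adicCompletion N) = exp (-(n : ℤ))) :
    normFactor W v = (Ideal.absNorm v.asIdeal : ℝ) ^ n := by
  rw [normFactor, h, log_exp, neg_neg, zpow_natCast]

end Pool.Agent.Lib.MP_1a91b9_ntW.T
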