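import Pool.Agent.Lib.MP_1a91b9_ntW.T.Lam0
import Pool.Agent.Lib.MP_1a91b9_ntW.T.TamC
import Pool.Agent.Lib.MP_1a91b9_ntW.R.Sy8
import Pool.Agent.Lib.MP_1a91b9_ntV.C.Plc
import Pool.Agent.Lib.MP_1a91b9_ntV.C.TamN

/-!
# The curves `y² = x³ + 4 d x² + 2 d² x` over `ℚ(√-2)`: the local constants at every place
-/

set_option autoImplicit false
set_option linter.unusedSectionVars false

namespace Pool.Agent.Lib.MP_1a91b9_ntW.T

open NumberField IsDedekindDomain WithZero WeierstrassCurve Finset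
open Pool.Agent.Lib.MP_1a91b9_ntW
open Pool.Agent.Lib.MP_1a91b9_ntT.S9 (tam minModel minChange minModel_isMinimal normFactor)
open Pool.Agent.Lib.MP_1a91b9_ntH.C (nsSet nsG)
open Pool.Agent.Lib.MP_1a91b9_ntH.C.TamT (Itg)
open Pool.Agent.Lib.MP_1a91b9_ntH.R (qs qs_eq_one_iff)
open Pool.Agent.Lib.MP_1a91b9_ntV.C (val_exp even_of_sq zmod2_even exp_neg_lt lt_exp lt_one_exp
  TamG_int NoDown odd_not_sq Tam2_le Tam2_lt valC pv pv_self pv_one pv_lt pv_le_pow pv_eq exists_pv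
  noDown_of_disc tam_good_gen v_minChange_good normFactor_one)
open scoped Classical

/-! ### the places prime to `2` which divide `d` -/

section

variable {L : Type*} [Field L] {V : Valuation L ℤᵐ⁰} {δ : L}

theorem q_delta_ne (h2 : V 2 = 1) (hd : V δ = exp (-1 : ℤ)) : (wb (4 * δ) (2 * δ ^ 2)).Δ ≠ 0 := by
  rw [wL_delta]
  have e : (512 : L) = 2 ^ 9 := by norm_num
  rw [e]
  exact mul_ne_zero (pow_ne_zero _ (v_ne (v_unit h2))) (pow_ne_zero _ (v_ne hd))

theorem q_four (h2 : V 2 = 1) : V (4 : L) = 1 := by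
  have e : (4 : L) = 2 * 2 := by norm_num
  rw [e, map_mul, h2, one_mul]

theorem q_a (h2 : V 2 = 1) (hd : V δ = exp (-1 : ℤ)) : V (4 * δ) < 1 := by
  rw [map_mul, q_four h2, one_mul, hd]
  exact exp_neg_lt

theorem q_b (h2 : V 2 = 1) (hd : V δ = exp (-1 : ℤ)) : V (2 * δ ^ 2) = exp (-2 : ℤ) := by
  rw [map_mul, h2, one_mul, v_pow hd]
  rfl

theorem q_NS (h2 : V 2 = 1) (hd : V δ = exp (-1 : ℤ)) : NS V (4 * δ) (2 * δ ^ 2) := by
  refine NS_odd h2 (q_a h2 hd) ?_
  rw [q_b h2 hd]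
  exact Tam2_lt (by norm_num)

theorem q_itg (h2 : V 2 = 1) (hd : V δ = exp (-1 : ℤ)) : Itg V (wb (4 * δ) (2 * δ ^ 2)) := by
  refine ⟨?_, (q_a h2 hd).le, ?_, ?_, ?_⟩
  · change V 0 ≤ 1
    rw [map_zero]
    exact zero_le
  · change V 0 ≤ 1
    rw [map_zero]
    exact zero_le
  · change V (2 * δ ^ 2) ≤ 1
    rw [q_b h2 hd]
    exact Tam2_le (by norm_num)
  · change V 0 ≤ 1
    rw [map_zero]
    exact zero_le

theorem q_noDown (h2 : V 2 = 1) (hd : V δ = exp (-1 : ℤ)) : NoDown V (wb (4 * δ) (2 * δ ^ 2)) := by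
  refine noDown_of_disc ?_
  have e : (512 : L) = 2 ^ 9 := by norm_num
  rw [wL_delta, e, map_mul, map_pow, h2, one_pow, one_mul, v_pow hd, exp_lt_exp]
  norm_num

/-- `2` is a square -/
theorem index_q4 (h2 : V 2 = 1) (hd : V δ = exp (-1 : ℤ)) {r : L} (hr : r ^ 2 = 2) :
    (nsG V (wb (4 * δ) (2 * δ ^ 2))).index = 4 := by
  refine index_four (q_delta_ne h2 hd) (q_a h2 hd).le (q_b h2 hd) (q_NS h2 hd)
    ⟨δ * (-2 + r), 0, ?_, ?_⟩
  · linear_combination (-δ ^ 3 * (-2 + r)) * hr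
  · have hr1 : V r = 1 := by
      refine v_unit_sq ?_
      rw [hr, h2]
    have p1 : V (-2 + r) ≤ 1 := Valuation.map_add_le _ (by rw [Valuation.map_neg, h2]) hr1.le
    have p2 : V (-2 - r) ≤ 1 := Valuation.map_sub_le _ (by rw [Valuation.map_neg, h2]) hr1.le
    have p3 : V (-2 + r) * V (-2 - r) = 1 := by
      rw [← map_mul]
      have e : (-2 + r) * (-2 - r) = 2 := by linear_combination -hr
      rw [e, h2]
    have p4 : V (-2 + r) = 1 := by
      refine le_antisymm p1 ?_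
      calc (1 : ℤᵐ⁰) = V (-2 + r) * V (-2 - r) := p3.symm
        _ ≤ V (-2 + r) * 1 := mul_le_mul_right p2 _
        _ = V (-2 + r) := mul_one _
    rw [map_mul, hd, p4, mul_one]

/-- `-1` is not a square modulo the prime ideal -/
theorem index_q2 (h2 : V 2 = 1) (hd : V δ = exp (-1 : ℤ)) {l : L} (hl : l ^ 2 = -2)
    (hno : ∀ w : L, V w ≤ 1 → ¬ V (w ^ 2 + 1) < 1) :
    (nsG V (wb (4 * δ) (2 * δ ^ 2))).index = 2 := by
  have hδ0 : δ ≠ 0 := v_ne hd
  have hl1 : V l = 1 := by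
    refine v_unit_sq ?_
    rw [hl, Valuation.map_neg, h2]
  have hl0 : l ≠ 0 := v_ne (v_unit hl1)
  refine index_two (q_delta_ne h2 hd) (q_a h2 hd).le (q_b h2 hd) (q_NS h2 hd) ?_
  intro x y he hx
  obtain ⟨x1, rfl⟩ : ∃ x1 : L, x = δ * x1 := ⟨x / δ, by field_simp⟩
  have v1 : V x1 = 1 := by
    rw [map_mul, hd] at hx
    have h1 : exp (-1 : ℤ) * V x1 = exp (-1 : ℤ) * 1 := by rw [hx, mul_one]
    exact mul_left_cancel₀ exp_ne_zero h1
  have e1 : y ^ 2 = δ ^ 3 * x1 * ((x1 + 2) ^ 2 - 2) := by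
    rw [he]
    ring
  have h3 : V ((x1 + 2) ^ 2 - 2) ≤ 1 := by
    refine Valuation.map_sub_le _ ?_ h2.le
    rw [map_pow]
    exact pow_le_one₀ zero_le (Valuation.map_add_le _ v1.le h2.le)
  rcases h3.lt_or_eq with h4 | h4
  · refine hno ((x1 + 2) / l) ?_ ?_
    · rw [map_div₀, hl1, div_one]
      exact Valuation.map_add_le _ v1.le h2.le
    · have e2 : ((x1 + 2) / l) ^ 2 + 1 = -(((x1 + 2) ^ 2 - 2) / 2) := by
        have h20 : (2 : L) ≠ 0 := v_ne (v_unit h2)
        rw [div_pow, hl]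
        field_simp
        ring
      rw [e2, Valuation.map_neg, map_div₀, h2, div_one]
      exact h4
  · have h5 : V (δ ^ 3 * x1 * ((x1 + 2) ^ 2 - 2)) = exp (-3 : ℤ) := by
      rw [v_mul (v_mul (v_pow hd 3) (v_unit v1)) (v_unit h4)]
      norm_num
    exact odd_sq h5 e1.symm (by norm_num)

end

/-! ### the completions -/

section

variable {v : HeightOneSpectrum (𝓞 K8)}

/-- an integer in the completion -/
noncomputable def el (v : HeightOneSpectrum (𝓞 K8)) (x : 𝓞 K8) : v.adicCompletion K8 :=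
  algebraMap K8 (v.adicCompletion K8) (x : K8)

theorem el_val (x : 𝓞 K8) : Valued.v (el v x) = v.valuation K8 (x : K8) := valC v _

theorem el_mul (x y : 𝓞 K8) : el v (x * y) = el v x * el v y := by
  rw [el, el, el, ← map_mul]
  push_cast
  rfl

theorem el_add (x y : 𝓞 K8) : el v (x + y) = el v x + el v y := by
  rw [el, el, el, ← map_add]
  push_cast
  rfl

theorem el_sub (x y : 𝓞 K8) : el v (x - y) = el v x - el v y := by
  rw [el, el, el, ← map_sub]
  push_cast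
  rfl

theorem el_neg (x : 𝓞 K8) : el v (-x) = -el v x := by
  rw [el, el, ← map_neg]
  push_cast
  rfl

theorem el_pow (x : 𝓞 K8) (n : ℕ) : el v (x ^ n) = el v x ^ n := by
  rw [el, el, ← map_pow]
  push_cast
  rfl

theorem el_one : el v 1 = 1 := by
  rw [el]
  have e : ((1 : 𝓞 K8) : K8) = 1 := map_one (algebraMap (𝓞 K8) K8)
  rw [e, map_one]

theorem el_two : el v 2 = 2 := by
  rw [el]
  have e : ((2 : 𝓞 K8) : K8) = 2 := map_ofNat (algebraMap (𝓞 K8) K8) 2
  rw [e, map_ofNat]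

theorem el_lam : el v lam ^ 2 = -2 := by
  rw [← el_pow, lam_sq, el_neg, el_two]

theorem WW_bc (d : 𝓞 K8) : (WW d).baseChange (v.adicCompletion K8) =
    wb (4 * el v d) (2 * el v d ^ 2) := by
  simp only [WeierstrassCurve.baseChange, WeierstrassCurve.map, WW, wb, el, map_zero, map_mul,
    map_pow, map_ofNat]

theorem WW_delta_ne {d : 𝓞 K8} (hd : d ≠ 0) : (WW d).Δ ≠ 0 := by
  rw [WW_delta]
  refine mul_ne_zero (by norm_num) (pow_ne_zero _ ?_)
  exact Pool.Agent.Lib.MP_1a91b9_ntV.C.coe_ne hd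

/-- the approximation by an algebraic integer -/
theorem exists_near (z : v.adicCompletion K8) (hz : Valued.v z ≤ (1 : ℤᵐ⁰)) :
    ∃ y : 𝓞 K8, Valued.v (z - el v y) < (1 : ℤᵐ⁰) := by
  have hn1 : exp (-(1 : ℤ)) < (1 : ℤᵐ⁰) := exp_neg_lt
  obtain ⟨c, hc⟩ := HeightOneSpectrum.valuedAdicCompletion_surjective K8 v (exp (-(1 : ℤ)))
  have hcr : Valued.v.restrict c ≠ 0 := by
    rw [Ne, Valuation.restrict_eq_zero_iff, hc]
    exact exp_ne_zero
  have hO : IsOpen ((fun y : v.adicCompletion K8 => z - y) ⁻¹'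
      {z : v.adicCompletion K8 | Valued.v.restrict z ≤ Valued.v.restrict c}) :=
    (Valued.isOpen_closedBall _ hcr).preimage (continuous_const.sub continuous_id)
  obtain ⟨x, hx⟩ := (HeightOneSpectrum.denseRange_algebraMap K8 v).exists_mem_open hO
    ⟨z, by
      rw [Set.mem_preimage, sub_self, Set.mem_ofPred_eq, map_zero]
      exact zero_le⟩
  rw [Set.mem_preimage, Set.mem_ofPred_eq, Valuation.restrict_le_iff, hc] at hx
  have hx1 : v.valuation K8 x ≤ 1 := by
    rw [← valC v]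
    have e1 : algebraMap K8 (v.adicCompletion K8) x =
        z - (z - algebraMap K8 (v.adicCompletion K8) x) := by ring
    rw [e1]
    exact Valuation.map_sub_le _ hz (hx.trans hn1.le)
  obtain ⟨y, hy⟩ := v.exists_valuation_sub_lt_of_integer (K := K8) hx1 1
  have hy' : v.valuation K8 (x - (y : K8)) < 1 := by
    rw [Valuation.map_sub_swap]
    simpa using hy
  refine ⟨y, ?_⟩
  have e1 : z - el v y = (z - algebraMap K8 (v.adicCompletion K8) x) +
      algebraMap K8 (v.adicCompletion K8) (x - (y : K8)) := by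
    rw [map_sub, el]
    ring
  rw [e1]
  refine Valuation.map_add_lt _ (hx.trans_lt hn1) ?_
  rw [valC]
  exact hy'

/-- The place `lam`. -/
noncomputable def vl : HeightOneSpectrum (𝓞 K8) := pv lam lam_prime

/-- The place of `q`. -/
noncomputable def vq (q : Pg) : HeightOneSpectrum (𝓞 K8) := pv q.1 q.2.1

theorem lam_or (y : 𝓞 K8) : lam ∣ y ∨ lam ∣ y - 1 := by
  rw [lam_dvd_iff, lam_dvd_iff, cp_sub, cp_one]
  simp only [Prod.fst_sub]
  omega

theorem el_lt {x : 𝓞 K8} : Valued.v (el vl x) < (1 : ℤᵐ⁰) ↔ lam ∣ x := by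
  rw [el_val]
  exact pv_lt lam_prime

theorem el_le {x : 𝓞 K8} (n : ℕ) : Valued.v (el vl x) ≤ exp (-(n : ℤ)) ↔ lam ^ n ∣ x := by
  rw [el_val]
  exact pv_le_pow lam_prime n

theorem el_unit {x : 𝓞 K8} (h : ¬ lam ∣ x) : Valued.v (el vl x) = (1 : ℤᵐ⁰) := by
  rw [el_val]
  exact pv_one lam_prime h

/-- The completion at `lam`. -/
theorem ql8 : QL (Valued.v : Valuation (vl.adicCompletion K8) ℤᵐ⁰) (el vl lam) where
  val := by
    rw [el_val]
    exact pv_self lam lam_prime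
  sq2 := el_lam
  res z hz := by
    obtain ⟨y, hy⟩ := exists_near z hz
    rcases lam_or y with h | h
    · left
      have e1 : z = (z - el vl y) + el vl y := by ring
      rw [e1]
      exact Valuation.map_add_lt _ hy (el_lt.2 h)
    · right
      have e1 : z - 1 = (z - el vl y) + el vl (y - 1) := by
        rw [el_sub, el_one]
        ring
      rw [e1]
      exact Valuation.map_add_lt _ hy (el_lt.2 h)
  sq z hz := by
    have h4' : Valued.v (4 : vl.adicCompletion K8) = exp (-4 : ℤ) := by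
      have e1 : (4 : vl.adicCompletion K8) = el vl lam ^ 4 := by
        linear_combination (2 - el vl lam ^ 2) * (el_lam (v := vl))
      have e2 : Valued.v (el vl lam) = exp (-1 : ℤ) := by
        rw [el_val]
        exact pv_self lam lam_prime
      rw [e1, map_pow, e2, ← exp_nsmul]
      rfl
    have h40 : (4 : vl.adicCompletion K8) ≠ 0 := by
      intro h
      rw [h, map_zero] at h4'
      exact exp_ne_zero h4'.symm
    have ht : Valued.v ((z - 1) / 4) < (1 : ℤᵐ⁰) := by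
      rw [map_div₀, h4', div_lt_one₀ exp_pos]
      exact hz.trans_lt (exp_lt_exp.2 (by norm_num))
    obtain ⟨s, _, hs⟩ := Pool.Agent.Lib.MP_1a91b9_ntT.S9.hensel_small vl (-((z - 1) / 4)) 1 1 0 0
      (by rw [Valuation.map_neg]; exact ht) (map_one _) (by rw [map_one])
      (by rw [map_zero]; exact zero_le) (by rw [map_zero]; exact zero_le)
    refine ⟨1 + 2 * s, ?_⟩
    have e1 : z = 1 + 4 * ((z - 1) / 4) := by
      field_simp
      ring
    rw [e1]
    linear_combination (-4 : vl.adicCompletion K8) * hs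

theorem not_dvd_two {π : 𝓞 K8} (hp : Prime π) (h : ¬ π ∣ lam) : ¬ π ∣ 2 := by
  intro h2
  rw [two_eq, dvd_neg] at h2
  exact h (hp.dvd_of_dvd_pow h2)

theorem q_not_lam (q : Pg) : ¬ q.1 ∣ lam := by
  intro h
  exact Pg_not_lam q ((q.2.1.associated_of_dvd lam_prime h).symm.dvd)

theorem el_two_val {v : HeightOneSpectrum (𝓞 K8)} {π : 𝓞 K8} (hp : Prime π) (hv : v = pv π hp)
    (h : ¬ π ∣ lam) : Valued.v (2 : v.adicCompletion K8) = (1 : ℤᵐ⁰) := by
  subst hv
  rw [← el_two, el_val]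
  exact pv_one hp (not_dvd_two hp h)

/-! ### the places of `d` prime to `2` -/

/-- the value of `aa q` -/
theorem aa_iff (q : Pg) : aa q.1 = 0 ↔ ∃ y : 𝓞 K8, q.1 ∣ y ^ 2 + 1 := by
  have h1 := qc_neg_one q
  have hnd : ¬ q.1 ∣ (-1 : 𝓞 K8) := fun h =>
    q.2.1.not_isUnit (isUnit_of_dvd_unit h isUnit_one.neg)
  rw [qc_of_not hnd] at h1
  have h2 := qs_eq_one_iff (-1 : 𝓞 K8) q.1
  have h01 : ∀ z : ZMod 2, z = 0 ∨ z = 1 := by decide
  have h3 : qs (-1 : 𝓞 K8) q.1 = 1 ↔ aa q.1 = 0 := by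
    rw [h1]
    rcases h01 (aa q.1) with h | h
    · rw [h]
      decide
    · rw [h]
      decide
  rw [← h3, h2]
  refine exists_congr fun y => ?_
  rw [sub_neg_eq_add]

/-- the Tamagawa number at a prime divisor of `d` -/
theorem tam_q (q : Pg) {d : 𝓞 K8} (hd : (vq q).valuation K8 (d : K8) = exp (-1 : ℤ)) :
    tam (WW d) (vq q) = if aa q.1 = 0 then 4 else 2 := by
  have hd0 : d ≠ 0 := by
    rintro rfl
    have e : ((0 : 𝓞 K8) : K8) = 0 := map_zero (algebraMap (𝓞 K8) K8)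
    rw [e, map_zero] at hd
    exact exp_ne_zero hd.symm
  have h2 : Valued.v (2 : (vq q).adicCompletion K8) = (1 : ℤᵐ⁰) :=
    el_two_val q.2.1 rfl (q_not_lam q)
  have hδ : Valued.v (el (vq q) d) = exp (-1 : ℤ) := by rw [el_val, hd]
  rw [tam_gen' (WW d) 1, one_smul, WW_bc]
  · split_ifs with ha
    · -- a square root of `2`
      obtain ⟨y, hy⟩ := (aa_iff q).1 ha
      have hy1 : Valued.v (el (vq q) (y ^ 2 + 1)) < (1 : ℤᵐ⁰) := by
        rw [el_val]
        exact (pv_lt q.2.1).2 hy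
      have hynd : ¬ q.1 ∣ y := by
        intro h
        have h3 : q.1 ∣ (y ^ 2 + 1) - y ^ 2 := dvd_sub hy (dvd_pow h two_ne_zero)
        rw [add_sub_cancel_left] at h3
        exact q.2.1.not_isUnit (isUnit_of_dvd_one h3)
      have hyv : Valued.v (el (vq q) y) = (1 : ℤᵐ⁰) := by
        rw [el_val]
        exact pv_one q.2.1 hynd
      have hy0 : el (vq q) y ≠ 0 := by
        intro h
        rw [h, map_zero] at hyv
        exact zero_ne_one hyv
      rw [el_add, el_pow, el_one] at hy1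
      obtain ⟨m, -, hm⟩ := Pool.Agent.Lib.MP_1a91b9_ntT.S9.hensel_small (vq q)
        (1 + 1 / el (vq q) y ^ 2) 2 1 0 0 (by
          have e : 1 + 1 / el (vq q) y ^ 2 = (el (vq q) y ^ 2 + 1) / el (vq q) y ^ 2 := by
            field_simp
          rw [e, map_div₀, map_pow, hyv, one_pow, div_one]
          exact hy1) h2 (map_one _).le (by rw [map_zero]; exact zero_le)
        (by rw [map_zero]; exact zero_le)
      refine index_q4 h2 hδ (r := el (vq q) lam * (el (vq q) y * (1 + m))) ?_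
      have e1 : (1 + m) ^ 2 = -(1 / el (vq q) y ^ 2) := by linear_combination hm
      have e2 : (el (vq q) y * (1 + m)) ^ 2 = -1 := by
        rw [mul_pow, e1]
        field_simp
      rw [mul_pow, e2, el_lam]
      ring
    · refine index_q2 h2 hδ (l := el (vq q) lam) el_lam ?_
      intro w hw hw1
      obtain ⟨y, hy⟩ := exists_near w hw
      apply ha
      refine (aa_iff q).2 ⟨y, ?_⟩
      rw [← pv_lt q.2.1]
      change (vq q).valuation K8 _ < 1
      rw [← el_val, el_add, el_pow, el_one]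
      have hy2 : Valued.v (el (vq q) y) ≤ (1 : ℤᵐ⁰) := by
        have e : el (vq q) y = w - (w - el (vq q) y) := by ring
        rw [e]
        exact Valuation.map_sub_le _ hw hy.le
      have e1 : el (vq q) y ^ 2 + 1 = (w ^ 2 + 1) - (w - el (vq q) y) * (w + el (vq q) y) := by
        ring
      rw [e1]
      refine Valuation.map_sub_lt _ hw1 ?_
      rw [map_mul]
      exact mul_lt_one_of_lt_of_le hy (Valuation.map_add_le _ hw hy2)
  · rw [one_smul, WW_bc]
    exact q_itg h2 hδ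
  · exact WW_delta_ne hd0
  · rw [one_smul, WW_bc]
    exact q_noDown h2 hδ

theorem nf_q (q : Pg) {d : 𝓞 K8} (hd : (vq q).valuation K8 (d : K8) = exp (-1 : ℤ)) :
    normFactor (WW d) (vq q) = 1 := by
  have hd0 : d ≠ 0 := by
    rintro rfl
    have e : ((0 : 𝓞 K8) : K8) = 0 := map_zero (algebraMap (𝓞 K8) K8)
    rw [e, map_zero] at hd
    exact exp_ne_zero hd.symm
  have h2 : Valued.v (2 : (vq q).adicCompletion K8) = (1 : ℤᵐ⁰) :=
    el_two_val q.2.1 rfl (q_not_lam q)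
  have hδ : Valued.v (el (vq q) d) = exp (-1 : ℤ) := by rw [el_val, hd]
  refine normFactor_one _ ?_
  rw [v_minChange' (WW d) 1]
  · exact map_one _
  · rw [one_smul, WW_bc]
    exact q_itg h2 hδ
  · exact WW_delta_ne hd0
  · rw [one_smul, WW_bc]
    exact q_noDown h2 hδ

/-! ### the places of good reduction prime to `2` -/

theorem good_disc {v : HeightOneSpectrum (𝓞 K8)} {π : 𝓞 K8} (hp : Prime π) (hv : v = pv π hp)
    (h : ¬ π ∣ lam) {d : 𝓞 K8} (hd : ¬ π ∣ d) :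
    (∃ I : WeierstrassCurve (v.adicCompletionIntegers K8),
      (1 : VariableChange (v.adicCompletion K8)) • (WW d).baseChange (v.adicCompletion K8) =
        I.baseChange (v.adicCompletion K8)) ∧
    Valued.v ((1 : VariableChange (v.adicCompletion K8)) •
      (WW d).baseChange (v.adicCompletion K8)).Δ = (1 : ℤᵐ⁰) := by
  have h2 := el_two_val hp hv h
  have h4 := q_four h2
  have hδ : Valued.v (el v d) = (1 : ℤᵐ⁰) := by
    rw [el_val, hv]
    exact pv_one hp hd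
  constructor
  · refine model_of_itg ?_
    rw [one_smul, WW_bc]
    refine ⟨?_, ?_, ?_, ?_, ?_⟩
    · change Valued.v (0 : v.adicCompletion K8) ≤ (1 : ℤᵐ⁰)
      rw [map_zero]
      exact zero_le
    · change Valued.v (4 * el v d) ≤ (1 : ℤᵐ⁰)
      rw [map_mul, h4, hδ, one_mul]
    · change Valued.v (0 : v.adicCompletion K8) ≤ (1 : ℤᵐ⁰)
      rw [map_zero]
      exact zero_le
    · change Valued.v (2 * el v d ^ 2) ≤ (1 : ℤᵐ⁰)
      rw [map_mul, map_pow, h2, hδ, one_pow, one_mul]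
    · change Valued.v (0 : v.adicCompletion K8) ≤ (1 : ℤᵐ⁰)
      rw [map_zero]
      exact zero_le
  · have e : (512 : v.adicCompletion K8) = 2 ^ 9 := by norm_num
    rw [one_smul, WW_bc, wL_delta, e, map_mul, map_pow, map_pow, h2, hδ, one_pow, one_pow, one_mul]

theorem tam_unit8 {v : HeightOneSpectrum (𝓞 K8)} {π : 𝓞 K8} (hp : Prime π) (hv : v = pv π hp)
    (h : ¬ π ∣ lam) {d : 𝓞 K8} (hd : ¬ π ∣ d) : tam (WW d) v = 1 := by
  obtain ⟨h1, h2⟩ := good_disc hp hv h hd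
  exact tam_good_gen (v := v) (WW d) 1 h1 h2

theorem nf_unit8 {v : HeightOneSpectrum (𝓞 K8)} {π : 𝓞 K8} (hp : Prime π) (hv : v = pv π hp)
    (h : ¬ π ∣ lam) {d : 𝓞 K8} (hd : ¬ π ∣ d) : normFactor (WW d) v = 1 := by
  obtain ⟨h1, h2⟩ := good_disc hp hv h hd
  refine normFactor_one _ ?_
  rw [v_minChange_good (WW d) 1 h1 h2]
  exact map_one _

/-! ### the place `lam` -/

/-- `d` odd -/
theorem one_itg {d : 𝓞 K8} (hd : ¬ lam ∣ d) :
    Itg (Valued.v : Valuation (vl.adicCompletion K8) ℤᵐ⁰)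
      ((1 : VariableChange (vl.adicCompletion K8)) • (WW d).baseChange (vl.adicCompletion K8)) ∧
    NoDown (Valued.v : Valuation (vl.adicCompletion K8) ℤᵐ⁰)
      ((1 : VariableChange (vl.adicCompletion K8)) •
        (WW d).baseChange (vl.adicCompletion K8)) := by
  have hδ := el_unit hd
  rw [one_smul, WW_bc]
  refine ⟨⟨?_, ql8.va hδ, ?_, ?_, ?_⟩, ql8.noDown hδ⟩
  · change Valued.v (0 : vl.adicCompletion K8) ≤ (1 : ℤᵐ⁰)
    rw [map_zero]
    exact zero_le
  · change Valued.v (0 : vl.adicCompletion K8) ≤ (1 : ℤᵐ⁰)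
    rw [map_zero]
    exact zero_le
  · change Valued.v (2 * el vl d ^ 2) ≤ (1 : ℤᵐ⁰)
    rw [ql8.vb hδ]
    exact Tam2_le (by norm_num)
  · change Valued.v (0 : vl.adicCompletion K8) ≤ (1 : ℤᵐ⁰)
    rw [map_zero]
    exact zero_le

theorem ne_zero_of_odd {d : 𝓞 K8} (hd : ¬ lam ∣ d) : d ≠ 0 := by
  rintro rfl
  exact hd (dvd_zero _)

theorem tam_lam_odd {d : 𝓞 K8} (hd : ¬ lam ∣ d) :
    tam (WW d) vl = if lam ^ 2 ∣ d - 1 then 4 else 2 := by
  obtain ⟨h1, h2⟩ := one_itg hd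
  have hδ := el_unit hd
  have hv2 : Valued.v (2 : vl.adicCompletion K8) < (1 : ℤᵐ⁰) := by
    rw [ql8.two]
    exact Tam2_lt (by norm_num)
  have hb1 : Valued.v (2 * el vl d ^ 2) < (1 : ℤᵐ⁰) := by
    rw [ql8.vb hδ]
    exact Tam2_lt (by norm_num)
  have hm : Valued.v (el vl d - 1) ≤ exp (-2 : ℤ) ↔ lam ^ 2 ∣ d - 1 := by
    rw [← el_one, ← el_sub]
    exact el_le 2
  rw [tam_gen' (WW d) 1 h1 (WW_delta_ne (ne_zero_of_odd hd)) h2, one_smul, WW_bc]
  split_ifs with h3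
  · exact index_four (ql8.delta_ne hδ) (ql8.va hδ) (ql8.vb hδ) (NS_two hv2 (ql8.va hδ) hb1)
      (ql8.exists_point hδ (hm.2 h3))
  · refine index_two (ql8.delta_ne hδ) (ql8.va hδ) (ql8.vb hδ) (NS_two hv2 (ql8.va hδ) hb1) ?_
    intro x y he hx
    exact h3 (hm.1 (ql8.point hδ he hx))

theorem nf_lam_odd {d : 𝓞 K8} (hd : ¬ lam ∣ d) : normFactor (WW d) vl = 1 := by
  obtain ⟨h1, h2⟩ := one_itg hd
  refine normFactor_one _ ?_
  rw [v_minChange' (WW d) 1 h1 (WW_delta_ne (ne_zero_of_odd hd)) h2]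
  exact map_one _

/-- The condition on `d` for `W_(lam d)` to have no good reduction. -/
def CO (d : 𝓞 K8) : Prop := lam ^ 2 ∣ d - 1 ∨ lam ^ 4 ∣ d - (1 + lam) ∨ lam ^ 4 ∣ d - (-1 + lam)

theorem CD_of_CO {d : 𝓞 K8} (h : CO d) : CD (Valued.v : Valuation (vl.adicCompletion K8) ℤᵐ⁰)
    (el vl lam) (el vl d) := by
  rcases h with h | h | h
  · left
    rw [← el_one, ← el_sub]
    exact (el_le 2).2 h
  · right; left
    rw [← el_one, ← el_add, ← el_sub]
    exact (el_le 4).2 h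
  · right; right
    rw [← el_one, ← el_neg, ← el_add, ← el_sub]
    exact (el_le 4).2 h

/-- the change of variables `u = lam` -/
noncomputable def C0 : VariableChange (vl.adicCompletion K8) :=
  ⟨Units.mk0 (el vl lam) ql8.l0, 0, 0, 0⟩

theorem C0_smul (d : 𝓞 K8) : C0 • (WW (lam * d)).baseChange (vl.adicCompletion K8) =
    wb (el vl lam ^ 3 * el vl d) (-el vl d ^ 2) := by
  rw [WW_bc, el_mul]
  exact change0 ql8

theorem C0_u : Valued.v (C0.u : vl.adicCompletion K8) = exp (-1 : ℤ) := ql8.val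

theorem zero_itg {d : 𝓞 K8} (hd : ¬ lam ∣ d) :
    Itg (Valued.v : Valuation (vl.adicCompletion K8) ℤᵐ⁰)
      (C0 • (WW (lam * d)).baseChange (vl.adicCompletion K8)) := by
  have hδ := el_unit hd
  rw [C0_smul]
  refine ⟨?_, ?_, ?_, ?_, ?_⟩
  · change Valued.v (0 : vl.adicCompletion K8) ≤ (1 : ℤᵐ⁰)
    rw [map_zero]
    exact zero_le
  · change Valued.v (el vl lam ^ 3 * el vl d) ≤ (1 : ℤᵐ⁰)
    rw [ql8.l3 hδ]
    exact Tam2_le (by norm_num)
  · change Valued.v (0 : vl.adicCompletion K8) ≤ (1 : ℤᵐ⁰)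
    rw [map_zero]
    exact zero_le
  · change Valued.v (-el vl d ^ 2) ≤ (1 : ℤᵐ⁰)
    rw [Valuation.map_neg, map_pow, hδ, one_pow]
  · change Valued.v (0 : vl.adicCompletion K8) ≤ (1 : ℤᵐ⁰)
    rw [map_zero]
    exact zero_le

theorem tam_lam_even {d : 𝓞 K8} (hd : ¬ lam ∣ d) (hc : CO d) : tam (WW (lam * d)) vl = 1 := by
  have hδ := el_unit hd
  have hc' := CD_of_CO hc
  rw [tam_gen' (WW (lam * d)) C0 (zero_itg hd)
    (WW_delta_ne (mul_ne_zero lam_ne_zero (ne_zero_of_odd hd)))]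
  · rw [C0_smul]
    exact ql8.index0 hδ hc'
  · rw [C0_smul]
    exact ql8.noDown0 hδ hc'

theorem norm_vl : Ideal.absNorm vl.asIdeal = 2 := by
  have e : vl.asIdeal = Ideal.span {lam} := rfl
  rw [e, absNorm_span8, Nz_lam]

theorem nf_lam_even {d : 𝓞 K8} (hd : ¬ lam ∣ d) (hc : CO d) :
    normFactor (WW (lam * d)) vl = 2 := by
  have hδ := el_unit hd
  have hc' := CD_of_CO hc
  rw [normFactor_pow _ 1, norm_vl]
  · norm_num
  · rw [v_minChange' (WW (lam * d)) C0 (zero_itg hd)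
      (WW_delta_ne (mul_ne_zero lam_ne_zero (ne_zero_of_odd hd))), C0_u]
    · rfl
    · rw [C0_smul]
      exact ql8.noDown0 hδ hc'

/-- good reduction at `lam` -/
theorem good_lam {d : 𝓞 K8} (hd : ¬ lam ∣ d) (hc : lam ^ 4 ∣ d + (1 + lam) ∨
    lam ^ 4 ∣ d + (-1 + lam)) : ∃ C : VariableChange (vl.adicCompletion K8),
      (∃ I : WeierstrassCurve (vl.adicCompletionIntegers K8),
        C • (WW (lam * d)).baseChange (vl.adicCompletion K8) =
          I.baseChange (vl.adicCompletion K8)) ∧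
      Valued.v (C • (WW (lam * d)).baseChange (vl.adicCompletion K8)).Δ = (1 : ℤᵐ⁰) ∧
      Valued.v (C.u : vl.adicCompletion K8) = exp (-2 : ℤ) := by
  have hδ := el_unit hd
  obtain ⟨C, h1, h2, h3⟩ := ql8.good hδ (by
    rcases hc with h | h
    · left
      rw [← el_one, ← el_add, ← el_add]
      exact (el_le 4).2 h
    · right
      rw [← el_one, ← el_neg, ← el_add, ← el_add]
      exact (el_le 4).2 h)
  refine ⟨C * C0, ?_, ?_, ?_⟩
  · refine model_of_itg ?_
    rw [mul_smul, C0_smul]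
    exact h1
  · rw [mul_smul, C0_smul]
    exact h2
  · have e : ((C * C0).u : vl.adicCompletion K8) = (C.u : vl.adicCompletion K8) * C0.u := by
      simp [VariableChange.mul_def]
    rw [e, map_mul, h3, C0_u, ← exp_add]
    rfl

theorem tam_lam_good {d : 𝓞 K8} (hd : ¬ lam ∣ d) (hc : lam ^ 4 ∣ d + (1 + lam) ∨
    lam ^ 4 ∣ d + (-1 + lam)) : tam (WW (lam * d)) vl = 1 := by
  obtain ⟨C, h1, h2, -⟩ := good_lam hd hc
  exact tam_good_gen (v := vl) _ C h1 h2

theorem nf_lam_good {d : 𝓞 K8} (hd : ¬ lam ∣ d) (hc : lam ^ 4 ∣ d + (1 + lam) ∨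
    lam ^ 4 ∣ d + (-1 + lam)) : normFactor (WW (lam * d)) vl = 4 := by
  obtain ⟨C, h1, h2, h3⟩ := good_lam hd hc
  rw [normFactor_pow _ 2, norm_vl]
  · norm_num
  · rw [v_minChange_good _ C h1 h2, h3]
    rfl

end

end Pool.Agent.Lib.MP_1a91b9_ntW.T
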